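import Mathlib
import Pool.Agent.H228R3.SapFactor

set_option autoImplicit false

/-!
# The sign pattern `M₄` of order four and the polynomials which it realizes
-/

namespace Pool.Agent.R113.M4

open Polynomial Matrix Pool.Agent.H228R3.Sap

/-- The matrices used to realize `M₄`. -/
def mat (a b d e i j : ℝ) : Matrix (Fin 4) (Fin 4) ℝ :=
  !![a, b, -1, 0;
     -d, -e, 1, 0;
     0, 0, 0, -1;
     i, j, 0, 0]

theorem mat_charpoly (a b d e i j : ℝ) : (mat a b d e i j).charpoly =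
    X ^ 4 - C (a - e) * X ^ 3 + C (b * d - a * e) * X ^ 2 - C (i - j) * X +
      C (j * (d - a) + i * (b - e)) := by
  have h1 : charmatrix (mat a b d e i j) =
      !![X - C a, -C b, 1, 0;
         C d, X + C e, -1, 0;
         0, 0, X, 1;
         -C i, -C j, 0, X] := by
    ext i j
    fin_cases i <;> fin_cases j <;> simp [charmatrix, mat]
  rw [Matrix.charpoly, h1]
  simp [Matrix.det_succ_row_zero, Fin.sum_univ_succ, Fin.succAbove]
  ring

/-- The elementary symmetric functions `E₁, …, E₄` are attained with positive parameters. -/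
def Att (E₁ E₂ E₃ E₄ : ℝ) : Prop :=
  ∃ a b d e i j : ℝ, 0 < a ∧ 0 < b ∧ 0 < d ∧ 0 < e ∧ 0 < i ∧ 0 < j ∧
    a - e = E₁ ∧ b * d - a * e = E₂ ∧ i - j = E₃ ∧ j * (d - a) + i * (b - e) = E₄

/-- A quadratic equation with positive sum and product of the roots. -/
theorem exists_root {s q m : ℝ} (hs : 0 < s) (hq : 0 < q) (hm : 0 < m) (h : 4 * s * m ≤ q ^ 2) :
    ∃ b : ℝ, 0 < b ∧ s * b ^ 2 - q * b + m = 0 := by
  have h0 : 0 ≤ q ^ 2 - 4 * s * m := by linarith
  obtain ⟨w, hw, h1⟩ : ∃ w : ℝ, 0 ≤ w ∧ w ^ 2 = q ^ 2 - 4 * s * m :=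
    ⟨_, Real.sqrt_nonneg _, Real.sq_sqrt h0⟩
  refine ⟨(q + w) / (2 * s), by positivity, ?_⟩
  field_simp
  linear_combination h1

/-- The case `E₃ > 0`. -/
theorem att_pos (E₁ E₂ : ℝ) {E₃ : ℝ} (E₄ : ℝ) (h3 : 0 < E₃) : Att E₁ E₂ E₃ E₄ := by
  -- choose `e`
  obtain ⟨e, he0, he1, he2, he3⟩ : ∃ e : ℝ, 0 < e ∧ 0 < e + E₁ ∧ 0 < E₂ + (e + E₁) * e ∧
      0 < E₃ * e + E₄ := by
    refine ⟨1 + |E₁| + |E₂| + |E₄| / E₃, by positivity, ?_, ?_, ?_⟩
    · have h1 := neg_abs_le E₁
      have : 0 ≤ |E₄| / E₃ := by positivity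
      have := abs_nonneg E₂
      linarith
    · have h1 := neg_abs_le E₁
      have h2 := neg_abs_le E₂
      have h4 : 0 ≤ |E₄| / E₃ := by positivity
      have h5 := abs_nonneg E₂
      have h6 := abs_nonneg E₁
      have h7 : 1 + |E₂| ≤ 1 + |E₁| + |E₂| + |E₄| / E₃ + E₁ := by linarith
      have h8 : (1 : ℝ) ≤ 1 + |E₁| + |E₂| + |E₄| / E₃ := by linarith
      nlinarith [mul_le_mul h7 h8 zero_le_one (by linarith)]
    · have h1 := neg_abs_le E₄
      have h2 : E₃ * (|E₄| / E₃) = |E₄| := by field_simp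
      have h5 := abs_nonneg E₂
      have h6 := abs_nonneg E₁
      have : E₃ * (1 + |E₁| + |E₂| + |E₄| / E₃) = E₃ * (1 + |E₁| + |E₂|) + |E₄| := by
        rw [mul_add, h2]
      rw [this]
      have : 0 < E₃ * (1 + |E₁| + |E₂|) := by positivity
      linarith
  set a := e + E₁ with ha
  set m := E₂ + a * e with hm
  set K := E₃ * e + E₄ with hK
  obtain ⟨j, hj0, hj1⟩ : ∃ j : ℝ, 0 < j ∧ 4 * (j + E₃) * (j * m) ≤ K ^ 2 := by
    refine ⟨min 1 (K ^ 2 / (4 * (1 + E₃) * m)), by positivity, ?_⟩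
    set j := min 1 (K ^ 2 / (4 * (1 + E₃) * m)) with hj
    have h1 : j ≤ 1 := min_le_left _ _
    have h2 : j ≤ K ^ 2 / (4 * (1 + E₃) * m) := min_le_right _ _
    have h0 : 0 < j := by positivity
    have h5 : 0 < 4 * (1 + E₃) * m := by positivity
    rw [le_div_iff₀ h5] at h2
    have : (j + E₃) * (j * m) ≤ (1 + E₃) * (j * m) := by
      apply mul_le_mul_of_nonneg_right (by linarith)
      positivity
    nlinarith
  obtain ⟨b, hb0, hb⟩ := exists_root (s := j + E₃) (q := j * (a + e) + K) (m := j * m)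
    (by linarith) (by positivity) (by positivity) (by
      refine hj1.trans ?_
      have : 0 < j * (a + e) := by positivity
      nlinarith)
  refine ⟨a, b, m / b, e, j + E₃, j, he1, hb0, by positivity, he0, by linarith, hj0, by
    rw [ha]; ring, ?_, by ring, ?_⟩
  · rw [mul_div_cancel₀ _ hb0.ne', hm]
    ring
  · have hb' := hb0.ne'
    field_simp
    rw [hK] at hb
    nlinarith

theorem Att.symm {E₁ E₂ E₃ E₄ : ℝ} (h : Att E₁ E₂ E₃ E₄) : Att (-E₁) E₂ (-E₃) E₄ := by
  obtain ⟨a, b, d, e, i, j, ha, hb, hd, he, hi, hj, h1, h2, h3, h4⟩ := h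
  refine ⟨e, d, b, a, j, i, he, hd, hb, ha, hj, hi, by linarith, by linarith, by linarith, ?_⟩
  linarith

/-- The case `E₃ = 0`, `E₄ > 0`. -/
theorem att_zero (E₁ E₂ : ℝ) {E₄ : ℝ} (h4 : 0 < E₄) : Att E₁ E₂ 0 E₄ := by
  obtain ⟨e, he0, he1, he2, he3⟩ : ∃ e : ℝ, 0 < e ∧ 0 < e + E₁ ∧ 0 < E₂ + (e + E₁) * e ∧
      2 * E₂ < E₄ * e := by
    refine ⟨1 + |E₁| + |E₂| + 2 * |E₂| / E₄, by positivity, ?_, ?_, ?_⟩
    · have h1 := neg_abs_le E₁
      have : 0 ≤ 2 * |E₂| / E₄ := by positivity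
      have := abs_nonneg E₂
      linarith
    · have h1 := neg_abs_le E₁
      have h2 := neg_abs_le E₂
      have h4 : 0 ≤ 2 * |E₂| / E₄ := by positivity
      have h5 := abs_nonneg E₂
      have h6 := abs_nonneg E₁
      have h7 : 1 + |E₂| ≤ 1 + |E₁| + |E₂| + 2 * |E₂| / E₄ + E₁ := by linarith
      have h8 : (1 : ℝ) ≤ 1 + |E₁| + |E₂| + 2 * |E₂| / E₄ := by linarith
      nlinarith [mul_le_mul h7 h8 zero_le_one (by linarith)]
    · have h2 : E₄ * (2 * |E₂| / E₄) = 2 * |E₂| := by field_simp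
      have h5 := le_abs_self E₂
      have : E₄ * (1 + |E₁| + |E₂| + 2 * |E₂| / E₄) = E₄ * (1 + |E₁| + |E₂|) + 2 * |E₂| := by
        rw [mul_add, h2]
      rw [this]
      have : 0 < E₄ * (1 + |E₁| + |E₂|) := by positivity
      linarith
  set a := e + E₁ with ha
  set m := E₂ + a * e with hm
  obtain ⟨b, hb0, hb⟩ := exists_root (s := 1) (q := a + e + E₄) (m := m)
    (by norm_num) (by positivity) he2 (by
      have h5 : E₁ = a - e := by rw [ha]; ring
      have : 0 < E₄ * a := by positivity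
      nlinarith [sq_nonneg (a - e), sq_nonneg E₄])
  refine ⟨a, b, m / b, e, 1, 1, he1, hb0, by positivity, he0, one_pos, one_pos, by
    rw [ha]; ring, ?_, by ring, ?_⟩
  · rw [mul_div_cancel₀ _ hb0.ne', hm]
    ring
  · have hb' := hb0.ne'
    field_simp
    nlinarith

theorem att_nil : Att 0 0 0 0 :=
  ⟨1, 1, 1, 1, 1, 1, by norm_num, by norm_num, by norm_num, by norm_num, by norm_num, by norm_num,
    by norm_num, by norm_num, by norm_num, by norm_num⟩

/-- The sign pattern `M₄`. -/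
def pat : Matrix (Fin 4) (Fin 4) SignType :=
  !![1, 1, -1, 0;
     -1, -1, 1, 0;
     0, 0, 0, -1;
     1, 1, 0, 0]

/-- `f` is the characteristic polynomial of a realization of `M₄`. -/
def Real4 (f : ℝ[X]) : Prop :=
  ∃ A : Matrix (Fin 4) (Fin 4) ℝ, (∀ i j, SignType.sign (A i j) = pat i j) ∧ A.charpoly = f

theorem Att.real4 {E₁ E₂ E₃ E₄ : ℝ} (h : Att E₁ E₂ E₃ E₄) :
    Real4 (X ^ 4 - C E₁ * X ^ 3 + C E₂ * X ^ 2 - C E₃ * X + C E₄) := by
  obtain ⟨a, b, d, e, i, j, ha, hb, hd, he, hi, hj, rfl, rfl, rfl, rfl⟩ := h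
  refine ⟨mat a b d e i j, ?_, mat_charpoly a b d e i j⟩
  intro k l
  fin_cases k <;> fin_cases l <;>
    simp [mat, pat, sign_pos, ha, hb, hd, he, hi, hj, sign_neg]

/-- All quartics with nonzero linear coefficient, or with positive constant coefficient, are
realized. -/
theorem real4 (E₁ E₂ E₃ E₄ : ℝ) (h : E₃ ≠ 0 ∨ 0 < E₄) :
    Real4 (X ^ 4 - C E₁ * X ^ 3 + C E₂ * X ^ 2 - C E₃ * X + C E₄) := by
  rcases lt_trichotomy E₃ 0 with h3 | h3 | h3
  · have := (att_pos (-E₁) E₂ E₄ (neg_pos.2 h3)).symm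
    rw [neg_neg, neg_neg] at this
    exact this.real4
  · subst h3
    rcases h with h | h
    · exact absurd rfl h
    · exact (att_zero E₁ E₂ h).real4
  · exact (att_pos E₁ E₂ E₄ h3).real4

theorem real4_nil : Real4 (X ^ 4) := by
  have := att_nil.real4
  simpa using this

/-- A quadratic of every degree two monic polynomial is realized by `T₂`. -/
theorem real2 (u v : ℝ) : ∃ B : Matrix (Fin 2) (Fin 2) ℝ,
    (∀ i j, SignType.sign (B i j) = (!![1, 1; -1, -1] : Matrix (Fin 2) (Fin 2) SignType) i j) ∧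
    B.charpoly = quad u v := by
  obtain ⟨d, hd, ha, hc⟩ : ∃ d : ℝ, 0 < d ∧ 0 < d + u ∧ 0 < v + (d + u) * d := by
    refine ⟨1 + |u| + |v|, by positivity, ?_, ?_⟩
    · have h1 := neg_abs_le u
      have := abs_nonneg v
      linarith
    · have h1 := neg_abs_le u
      have h2 := neg_abs_le v
      have h5 := abs_nonneg v
      have h6 := abs_nonneg u
      have h7 : 1 + |v| ≤ 1 + |u| + |v| + u := by linarith
      have h8 : (1 : ℝ) ≤ 1 + |u| + |v| := by linarith
      nlinarith [mul_le_mul h7 h8 zero_le_one (by linarith)]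
  refine ⟨!![d + u, 1; -(v + (d + u) * d), -d], ?_, ?_⟩
  · intro i j
    fin_cases i <;> fin_cases j
    · simpa using sign_pos ha
    · simp
    · simpa using sign_neg (a := -(v + (d + u) * d)) (by linarith)
    · simpa using sign_neg (a := -d) (by linarith)
  · rw [Matrix.charpoly_fin_two]
    simp only [Matrix.trace_fin_two_of, Matrix.det_fin_two_of, quad]
    congr 2
    · congr 3
      ring
    · ring

/-- Every monic real sextic has a factor of degree four realized by `M₄`. -/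
theorem factor6 {f : ℝ[X]} (hf : IsMonicOfDegree f 6) :
    ∃ g h : ℝ[X], Real4 g ∧ IsMonicOfDegree h 2 ∧ f = g * h := by
  obtain ⟨i, j, k, α, β, L₀, L₁, L₂, hi, hj, hα, hβ, h0, h1, h2, hn, rfl⟩ := good_of_monic 6 f hf
  have hQ : QP L₀ * QP L₁ * QP L₂ = QP (L₀ ++ L₁ ++ L₂) := by
    simp [QP, mul_assoc]
  obtain ⟨L, hL⟩ : ∃ L, L = L₀ ++ L₁ ++ L₂ := ⟨_, rfl⟩
  have hLpos : ∀ x ∈ L, 0 < x.2 := by
    intro x hx
    rw [hL, List.mem_append, List.mem_append] at hx
    rcases hx with (hx | hx) | hx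
    · exact (h0 x hx).2
    · exact (h1 x hx).2
    · exact (h2 x hx).2
  have hlen : i + j + k + 2 * L.length = 6 := by
    rw [hL, List.length_append, List.length_append]
    exact hn
  have hfe : (X - C α) ^ i * (X + C β) ^ j * X ^ k * QP L₀ * QP L₁ * QP L₂ =
      (X - C α) ^ i * (X + C β) ^ j * X ^ k * QP L := by
    rw [hL, ← hQ]
    ring
  rw [hfe] at hf ⊢
  have key : ∀ g h : ℝ[X], Real4 g → IsMonicOfDegree g 4 →
      (X - C α) ^ i * (X + C β) ^ j * X ^ k * QP L = g * h →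
      ∃ g h : ℝ[X], Real4 g ∧ IsMonicOfDegree h 2 ∧
        (X - C α) ^ i * (X + C β) ^ j * X ^ k * QP L = g * h := by
    intro g h hg hg4 e
    refine ⟨g, h, hg, ?_, e⟩
    rw [e] at hf
    exact IsMonicOfDegree.of_mul_left hg4 hf
  have qq : ∀ u v u' v' : ℝ, quad u v * quad u' v' =
      X ^ 4 - C (u + u') * X ^ 3 + C (v + v' + u * u') * X ^ 2 - C (u * v' + v * u') * X +
        C (v * v') := by
    intro u v u' v'
    simp only [quad, map_add, map_mul]
    ring
  rcases L with _ | ⟨x, _ | ⟨y, L⟩⟩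
  · -- no quadratics
    simp only [List.length_nil] at hlen
    obtain ⟨k', rfl⟩ : ∃ k', k = 4 + k' := ⟨k - 4, by omega⟩
    refine key (X ^ 4) ((X - C α) ^ i * (X + C β) ^ j * X ^ k' * QP []) real4_nil
      ⟨by simp, monic_X_pow 4⟩ ?_
    rw [pow_add]
    ring
  · -- one quadratic
    simp only [List.length_cons, List.length_nil] at hlen
    have hx := hLpos x (by simp)
    have lin : ∀ r : ℝ, r ≠ 0 → ∀ h : ℝ[X],
        (X - C α) ^ i * (X + C β) ^ j * X ^ k * QP [x] = (X * (X - C r) * quad x.1 x.2) * h →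
        ∃ g h : ℝ[X], Real4 g ∧ IsMonicOfDegree h 2 ∧
          (X - C α) ^ i * (X + C β) ^ j * X ^ k * QP [x] = g * h := by
      intro r hr h e
      have e1 : X * (X - C r) * quad x.1 x.2 = quad r 0 * quad x.1 x.2 := by
        simp only [quad, map_zero]
        ring
      rw [e1] at e
      refine key _ h ?_ ((quad_monic _ _).mul (quad_monic _ _)) e
      rw [qq]
      apply real4
      left
      have : r * x.2 + 0 * x.1 = r * x.2 := by ring
      rw [this]
      exact mul_ne_zero hr hx.ne'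
    by_cases hi1 : i = 1
    · subst hi1
      obtain ⟨k', rfl⟩ : ∃ k', k = 1 + k' := ⟨k - 1, by omega⟩
      refine lin α hα.ne' ((X + C β) ^ j * X ^ k') ?_
      rw [pow_add, QP_cons]
      simp only [QP, List.map_nil, List.prod_nil]
      ring
    · by_cases hj1 : j = 1
      · subst hj1
        obtain ⟨k', rfl⟩ : ∃ k', k = 1 + k' := ⟨k - 1, by omega⟩
        refine lin (-β) (neg_ne_zero.2 hβ.ne') ((X - C α) ^ i * X ^ k') ?_
        rw [pow_add, QP_cons]
        simp only [QP, List.map_nil, List.prod_nil, map_neg, sub_neg_eq_add]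
        ring
      · have hi0 : i = 0 := by omega
        have hj0 : j = 0 := by omega
        subst hi0 hj0
        have hk : k = 4 := by omega
        subst hk
        refine key (X ^ 4) (QP [x]) real4_nil ⟨by simp, monic_X_pow 4⟩ ?_
        ring
  · -- two quadratics
    have hx := hLpos x (by simp)
    have hy := hLpos y (by simp)
    refine key (quad x.1 x.2 * quad y.1 y.2)
      ((X - C α) ^ i * (X + C β) ^ j * X ^ k * QP L) ?_ ((quad_monic _ _).mul (quad_monic _ _)) ?_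
    · rw [qq]
      apply real4
      right
      positivity
    · rw [QP_cons, QP_cons]
      ring

end Pool.Agent.R113.M4
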