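import Mathlib

/-!
# Approximate decorrelation of connection events in bond percolation

Bernoulli bond percolation with edge probabilities `p : E → ℝ` on a finite edge set.  The main
result is `cov_le`: `P(abc) - P(ac) P(bc) ≤ κ + P(ab|c)/η + 2η/κ` for `0 < η ≤ κ < 1`.
-/

set_option autoImplicit false

open Finset

namespace Pool.Agent.R113.Perc

/-! ### Finite product measures -/

section Prob

variable {E : Type*} [Fintype E] [DecidableEq E]

/-- the weight of a configuration -/
def wt (p : E → ℝ) (ω : Finset E) : ℝ := ∏ e, if e ∈ ω then p e else 1 - p e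

open Classical in
/-- the probability of an event -/
noncomputable def Pr (p : E → ℝ) (A : Finset E → Prop) : ℝ :=
  ∑ ω : Finset E, if A ω then wt p ω else 0

omit [Fintype E] in
theorem sum_wtS (S : Finset E) (p : E → ℝ) :
    ∑ u ∈ S.powerset, (∏ e ∈ S, if e ∈ u then p e else 1 - p e) = 1 := by
  have h := Finset.prod_add (fun e => p e) (fun e => 1 - p e) S
  have h1 : ∏ e ∈ S, (p e + (1 - p e)) = 1 := by
    apply Finset.prod_eq_one; intro e _; ring
  rw [h1] at h
  refine Eq.trans ?_ h.symm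
  apply Finset.sum_congr rfl
  intro u hu
  rw [Finset.mem_powerset] at hu
  rw [Finset.prod_ite]
  congr 1
  · apply Finset.prod_congr _ (fun _ _ => rfl)
    ext e; simp only [Finset.mem_filter]
    exact ⟨fun h => h.2, fun h => ⟨hu h, h⟩⟩
  · apply Finset.prod_congr _ (fun _ _ => rfl)
    ext e; simp only [Finset.mem_filter, Finset.mem_sdiff]

/-- splitting sums over configurations -/
theorem sum_split (S : Finset E) (f g : Finset E → ℝ) :
    ∑ ω : Finset E, f (ω ∩ S) * g (ω \ S)
      = (∑ u ∈ S.powerset, f u) * ∑ w ∈ (univ \ S).powerset, g w := by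
  rw [Finset.sum_mul_sum, ← Finset.sum_product']
  symm
  apply Finset.sum_nbij' (i := fun x : Finset E × Finset E => x.1 ∪ x.2)
    (j := fun ω => (ω ∩ S, ω \ S))
  · intro x _; exact Finset.mem_univ _
  · intro ω _
    rw [Finset.mem_product, Finset.mem_powerset, Finset.mem_powerset]
    exact ⟨Finset.inter_subset_right, Finset.sdiff_subset_sdiff (Finset.subset_univ _) le_rfl⟩
  · rintro ⟨u, w⟩ hx
    rw [Finset.mem_product, Finset.mem_powerset, Finset.mem_powerset] at hx
    obtain ⟨hu, hw⟩ := hx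
    simp only at hu hw ⊢
    ext e
    · simp only [Finset.mem_inter, Finset.mem_union]
      constructor
      · rintro ⟨h1 | h1, h2⟩
        · exact h1
        · exact absurd h2 (Finset.mem_sdiff.1 (hw h1)).2
      · intro h; exact ⟨Or.inl h, hu h⟩
    · simp only [Finset.mem_sdiff, Finset.mem_union]
      constructor
      · rintro ⟨h1 | h1, h2⟩
        · exact absurd (hu h1) h2
        · exact h1
      · intro h; exact ⟨Or.inr h, (Finset.mem_sdiff.1 (hw h)).2⟩
  · intro ω _
    ext e; simp only [Finset.mem_union, Finset.mem_inter, Finset.mem_sdiff]; tauto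
  · rintro ⟨u, w⟩ hx
    rw [Finset.mem_product, Finset.mem_powerset, Finset.mem_powerset] at hx
    obtain ⟨hu, hw⟩ := hx
    simp only at hu hw ⊢
    congr 1
    · congr 1; ext e
      simp only [Finset.mem_inter, Finset.mem_union]
      constructor
      · intro h; exact ⟨Or.inl h, hu h⟩
      · rintro ⟨h1 | h1, h2⟩
        · exact h1
        · exact absurd h2 (Finset.mem_sdiff.1 (hw h1)).2
    · congr 1; ext e
      simp only [Finset.mem_sdiff, Finset.mem_union]
      constructor
      · intro h; exact ⟨Or.inr h, (Finset.mem_sdiff.1 (hw h)).2⟩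
      · rintro ⟨h1 | h1, h2⟩
        · exact absurd (hu h1) h2
        · exact h1

theorem wt_split (S : Finset E) (p : E → ℝ) (ω : Finset E) :
    wt p ω = (∏ e ∈ S, if e ∈ ω ∩ S then p e else 1 - p e)
      * ∏ e ∈ univ \ S, if e ∈ ω \ S then p e else 1 - p e := by
  unfold wt
  rw [← Finset.prod_sdiff (Finset.subset_univ S), mul_comm]
  congr 1
  · apply Finset.prod_congr rfl
    intro e he
    simp [he]
  · apply Finset.prod_congr rfl
    intro e he
    have he' := (Finset.mem_sdiff.1 he).2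
    simp [he']

open Classical in
/-- an event which depends only on the edges in `S` -/
theorem Pr_eq_inter (S : Finset E) (p : E → ℝ) (A : Finset E → Prop)
    (hA : ∀ ω, A ω ↔ A (ω ∩ S)) :
    Pr p A = ∑ u ∈ S.powerset, (if A u then ∏ e ∈ S, (if e ∈ u then p e else 1 - p e) else 0) := by
  have h1 := sum_split S
    (fun u => if A u then ∏ e ∈ S, (if e ∈ u then p e else 1 - p e) else 0)
    (fun w => ∏ e ∈ univ \ S, if e ∈ w then p e else 1 - p e)
  rw [sum_wtS, mul_one] at h1
  rw [← h1]
  unfold Pr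
  apply Finset.sum_congr rfl
  intro ω _
  rw [wt_split S p ω]
  by_cases h : A ω
  · rw [if_pos h, if_pos ((hA ω).1 h)]
  · rw [if_neg h, if_neg (fun h' => h ((hA ω).2 h')), zero_mul]

open Classical in
theorem Pr_eq_sdiff (S : Finset E) (p : E → ℝ) (A : Finset E → Prop)
    (hA : ∀ ω, A ω ↔ A (ω \ S)) :
    Pr p A = ∑ u ∈ (univ \ S).powerset,
      (if A u then ∏ e ∈ univ \ S, (if e ∈ u then p e else 1 - p e) else 0) := by
  have h1 := sum_split S
    (fun u => ∏ e ∈ S, (if e ∈ u then p e else 1 - p e))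
    (fun w => if A w then ∏ e ∈ univ \ S, (if e ∈ w then p e else 1 - p e) else 0)
  rw [sum_wtS, one_mul] at h1
  rw [← h1]
  unfold Pr
  apply Finset.sum_congr rfl
  intro ω _
  rw [wt_split S p ω]
  by_cases h : A ω
  · rw [if_pos h, if_pos ((hA ω).1 h)]
  · rw [if_neg h, if_neg (fun h' => h ((hA ω).2 h')), mul_zero]

open Classical in
/-- independence -/
theorem Pr_indep (S : Finset E) (p : E → ℝ) (A B : Finset E → Prop)
    (hA : ∀ ω, A ω ↔ A (ω ∩ S)) (hB : ∀ ω, B ω ↔ B (ω \ S)) :
    Pr p (fun ω => A ω ∧ B ω) = Pr p A * Pr p B := by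
  rw [Pr_eq_inter S p A hA, Pr_eq_sdiff S p B hB, ← sum_split]
  unfold Pr
  apply Finset.sum_congr rfl
  intro ω _
  rw [wt_split S p ω]
  by_cases h : A ω
  · by_cases h' : B ω
    · rw [if_pos ⟨h, h'⟩, if_pos ((hA ω).1 h), if_pos ((hB ω).1 h')]
    · rw [if_neg (fun h2 => h' h2.2), if_neg (fun h2 => h' ((hB ω).2 h2)), mul_zero]
  · rw [if_neg (fun h2 => h h2.1), if_neg (fun h2 => h ((hA ω).2 h2)), zero_mul]

/-- an event which does not depend on the edge `e` -/
theorem Pr_update_eq (p : E → ℝ) (e : E) (x : ℝ) (A : Finset E → Prop)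
    (hA : ∀ ω, A ω ↔ A (ω.erase e)) : Pr (Function.update p e x) A = Pr p A := by
  have hA' : ∀ ω, A ω ↔ A (ω ∩ univ.erase e) := by
    intro ω
    rw [hA ω]
    have : ω ∩ univ.erase e = ω.erase e := by
      ext f; simp only [Finset.mem_inter, Finset.mem_erase, Finset.mem_univ, and_true]; tauto
    rw [this]
  rw [Pr_eq_inter (univ.erase e) _ A hA', Pr_eq_inter (univ.erase e) _ A hA']
  apply Finset.sum_congr rfl
  intro u _
  congr 1
  apply Finset.prod_congr rfl
  intro f hf
  rw [Function.update_of_ne (Finset.ne_of_mem_erase hf)]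

theorem wt_update (p : E → ℝ) (e : E) (ω : Finset E) :
    wt p ω = p e * wt (Function.update p e 1) ω + (1 - p e) * wt (Function.update p e 0) ω := by
  unfold wt
  have h : ∀ x : ℝ, (∏ f, if f ∈ ω then Function.update p e x f else 1 - Function.update p e x f)
      = (if e ∈ ω then x else 1 - x)
        * ∏ f ∈ univ.erase e, if f ∈ ω then p f else 1 - p f := by
    intro x
    rw [← Finset.mul_prod_erase univ _ (Finset.mem_univ e)]
    congr 1
    · rw [Function.update_self]
    · apply Finset.prod_congr rfl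
      intro f hf
      rw [Function.update_of_ne (Finset.ne_of_mem_erase hf)]
  have h0 := h (p e)
  rw [Function.update_eq_self] at h0
  rw [h0, h 1, h 0]
  by_cases he : e ∈ ω
  · simp [he]
  · simp [he]

theorem Pr_update (p : E → ℝ) (e : E) (A : Finset E → Prop) :
    Pr p A = p e * Pr (Function.update p e 1) A + (1 - p e) * Pr (Function.update p e 0) A := by
  unfold Pr
  rw [Finset.mul_sum, Finset.mul_sum, ← Finset.sum_add_distrib]
  apply Finset.sum_congr rfl
  intro ω _
  by_cases h : A ω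
  · rw [if_pos h, if_pos h, if_pos h]; exact wt_update p e ω
  · rw [if_neg h, if_neg h, if_neg h]; ring

/-- admissible probabilities -/
def Adm (p : E → ℝ) : Prop := ∀ e, 0 ≤ p e ∧ p e ≤ 1

omit [Fintype E] in
theorem Adm.update {p : E → ℝ} (hp : Adm p) (e : E) {x : ℝ} (hx : 0 ≤ x ∧ x ≤ 1) :
    Adm (Function.update p e x) := by
  intro f
  by_cases h : f = e
  · subst h; rw [Function.update_self]; exact hx
  · rw [Function.update_of_ne h]; exact hp f

theorem wt_nonneg {p : E → ℝ} (hp : Adm p) (ω : Finset E) : 0 ≤ wt p ω := by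
  apply Finset.prod_nonneg
  intro e _
  have := hp e
  split_ifs
  · exact this.1
  · linarith [this.2]

theorem mem_of_wt {p : E → ℝ} {ω : Finset E} (h : wt p ω ≠ 0) {e : E} (he : p e = 1) : e ∈ ω := by
  by_contra hcon
  apply h
  apply Finset.prod_eq_zero (Finset.mem_univ e)
  rw [if_neg hcon, he]; ring

theorem notMem_of_wt {p : E → ℝ} {ω : Finset E} (h : wt p ω ≠ 0) {e : E} (he : p e = 0) :
    e ∉ ω := by
  intro hcon
  apply h
  apply Finset.prod_eq_zero (Finset.mem_univ e)
  rw [if_pos hcon, he]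

theorem Pr_nonneg {p : E → ℝ} (hp : Adm p) (A : Finset E → Prop) : 0 ≤ Pr p A := by
  apply Finset.sum_nonneg
  intro ω _
  split_ifs
  · exact wt_nonneg hp ω
  · exact le_rfl

theorem Pr_mono {p : E → ℝ} (hp : Adm p) {A B : Finset E → Prop}
    (h : ∀ ω, wt p ω ≠ 0 → A ω → B ω) : Pr p A ≤ Pr p B := by
  apply Finset.sum_le_sum
  intro ω _
  by_cases hA : A ω
  · rw [if_pos hA]
    by_cases hw : wt p ω = 0
    · rw [hw]; split_ifs <;> exact le_rfl
    · rw [if_pos (h ω hw hA)]
  · rw [if_neg hA]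
    split_ifs
    · exact wt_nonneg hp ω
    · exact le_rfl

theorem Pr_congr {p : E → ℝ} (hp : Adm p) {A B : Finset E → Prop}
    (h : ∀ ω, wt p ω ≠ 0 → (A ω ↔ B ω)) : Pr p A = Pr p B :=
  le_antisymm (Pr_mono hp fun ω hw => (h ω hw).1) (Pr_mono hp fun ω hw => (h ω hw).2)

theorem Pr_true (p : E → ℝ) : Pr p (fun _ => True) = 1 := by
  have := sum_wtS (univ : Finset E) p
  rw [Finset.powerset_univ] at this
  rw [← this]
  unfold Pr wt
  apply Finset.sum_congr rfl
  intro ω _
  rw [if_pos trivial]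

theorem Pr_le_one {p : E → ℝ} (hp : Adm p) (A : Finset E → Prop) : Pr p A ≤ 1 := by
  rw [← Pr_true p]
  exact Pr_mono hp fun _ _ _ => trivial

theorem Pr_add (p : E → ℝ) (A B : Finset E → Prop) :
    Pr p A = Pr p (fun ω => A ω ∧ B ω) + Pr p (fun ω => A ω ∧ ¬ B ω) := by
  unfold Pr
  rw [← Finset.sum_add_distrib]
  apply Finset.sum_congr rfl
  intro ω _
  by_cases hA : A ω <;> by_cases hB : B ω <;> simp [hA, hB]

theorem Pr_not (p : E → ℝ) (A : Finset E → Prop) : Pr p (fun ω => ¬ A ω) = 1 - Pr p A := by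
  have h := Pr_add p (fun _ => True) A
  rw [Pr_true] at h
  simp only [true_and] at h
  linarith

theorem Pr_le_add3 {p : E → ℝ} (hp : Adm p) {A B C D : Finset E → Prop}
    (h : ∀ ω, wt p ω ≠ 0 → A ω → B ω ∨ C ω ∨ D ω) : Pr p A ≤ Pr p B + Pr p C + Pr p D := by
  unfold Pr
  rw [← Finset.sum_add_distrib, ← Finset.sum_add_distrib]
  apply Finset.sum_le_sum
  intro ω _
  have hw0 := wt_nonneg hp ω
  by_cases hw : wt p ω = 0
  · rw [hw]; simp
  by_cases hA : A ω
  · rcases h ω hw hA with h1 | h1 | h1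
    · rw [if_pos hA, if_pos h1]; split_ifs <;> linarith
    · rw [if_pos hA, if_pos h1]; split_ifs <;> linarith
    · rw [if_pos hA, if_pos h1]; split_ifs <;> linarith
  · rw [if_neg hA]; split_ifs <;> linarith

/-- increasing events -/
theorem Pr_le_update {p : E → ℝ} (hp : Adm p) (e : E) {A : Finset E → Prop}
    (hA : ∀ ω, A ω → A (insert e ω)) :
    Pr (Function.update p e 0) A ≤ Pr (Function.update p e 1) A := by
  have hp0 : Adm (Function.update p e 0) := hp.update e ⟨le_rfl, zero_le_one⟩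
  have hp1 : Adm (Function.update p e 1) := hp.update e ⟨zero_le_one, le_rfl⟩
  have hdep : ∀ ω, A (insert e ω) ↔ A (insert e (ω.erase e)) := by
    intro ω
    have : insert e (ω.erase e) = insert e ω := by
      ext f; simp only [Finset.mem_insert, Finset.mem_erase]; tauto
    rw [this]
  calc Pr (Function.update p e 0) A
      ≤ Pr (Function.update p e 0) (fun ω => A (insert e ω)) := Pr_mono hp0 fun ω _ h => hA ω h
    _ = Pr p (fun ω => A (insert e ω)) := Pr_update_eq p e 0 _ hdep
    _ = Pr (Function.update p e 1) (fun ω => A (insert e ω)) := (Pr_update_eq p e 1 _ hdep).symm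
    _ ≤ Pr (Function.update p e 1) A := by
        apply Pr_mono hp1
        intro ω hw h
        have he : e ∈ ω := mem_of_wt hw (Function.update_self _ _ _)
        rwa [Finset.insert_eq_of_mem he] at h

/-- summing over the values of a random set -/
theorem Pr_sum {V : Type*} [Fintype V] [DecidableEq V] (p : E → ℝ) (f : Finset E → Finset V)
    (R : Finset V → Finset E → Prop) :
    ∑ B0 : Finset V, Pr p (fun ω => f ω = B0 ∧ R B0 ω) = Pr p (fun ω => R (f ω) ω) := by
  unfold Pr
  rw [Finset.sum_comm]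
  apply Finset.sum_congr rfl
  intro ω _
  rw [Finset.sum_eq_single (f ω)]
  · by_cases hR : R (f ω) ω
    · rw [if_pos ⟨rfl, hR⟩, if_pos hR]
    · rw [if_neg (fun h => hR h.2), if_neg hR]
  · intro B0 _ hne
    rw [if_neg]
    rintro ⟨h, _⟩
    exact hne h.symm
  · intro h; exact absurd (Finset.mem_univ _) h

end Prob

/-! ### Connections -/

section Conn

variable {V : Type*} [Fintype V] [DecidableEq V]

/-- `x` and `y` are joined by an open edge, and neither is in `T` -/
def adj (ω : Finset (Sym2 V)) (T : Set V) (x y : V) : Prop := s(x, y) ∈ ω ∧ x ∉ T ∧ y ∉ T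

/-- `x` and `y` are connected by open edges off `T` -/
def con (ω : Finset (Sym2 V)) (T : Set V) (x y : V) : Prop := Relation.ReflTransGen (adj ω T) x y

omit [Fintype V] [DecidableEq V] in
theorem adj_symm {ω : Finset (Sym2 V)} {T : Set V} {x y : V} (h : adj ω T x y) : adj ω T y x := by
  obtain ⟨h1, h2, h3⟩ := h
  exact ⟨by rw [Sym2.eq_swap]; exact h1, h3, h2⟩

omit [Fintype V] [DecidableEq V] in
theorem con_symm {ω : Finset (Sym2 V)} {T : Set V} {x y : V} (h : con ω T x y) : con ω T y x :=
  by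
  induction h with
  | refl => exact Relation.ReflTransGen.refl
  | tail _ h2 ih => exact Relation.ReflTransGen.head (adj_symm h2) ih

omit [Fintype V] [DecidableEq V] in
theorem con_trans {ω : Finset (Sym2 V)} {T : Set V} {x y z : V} (h : con ω T x y)
    (h' : con ω T y z) : con ω T x z := Relation.ReflTransGen.trans h h'

omit [Fintype V] [DecidableEq V] in
theorem con_mono {ω ω' : Finset (Sym2 V)} {T T' : Set V} (hω : ω ⊆ ω') (hT : T' ⊆ T) {x y : V}
    (h : con ω T x y) : con ω' T' x y := by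
  induction h with
  | refl => exact Relation.ReflTransGen.refl
  | tail _ h2 ih =>
    exact Relation.ReflTransGen.tail ih
      ⟨hω h2.1, fun h => h2.2.1 (hT h), fun h => h2.2.2 (hT h)⟩

open Classical in
/-- the edges touching `B0` -/
noncomputable def touch (B0 : Finset V) : Finset (Sym2 V) := univ.filter fun f => ∃ y ∈ B0, y ∈ f

theorem mem_touch {B0 : Finset V} {f : Sym2 V} : f ∈ touch B0 ↔ ∃ y ∈ B0, y ∈ f := by
  unfold touch; simp

open Classical in
/-- the cluster of `b` off `T` -/
noncomputable def cl (T : Set V) (b : V) (ω : Finset (Sym2 V)) : Finset V :=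
  univ.filter fun y => con ω T b y

omit [DecidableEq V] in
theorem mem_cl {T : Set V} {b : V} {ω : Finset (Sym2 V)} {y : V} :
    y ∈ cl T b ω ↔ con ω T b y := by
  unfold cl; simp

omit [DecidableEq V] in
theorem notMem_of_cl {T : Set V} {b : V} (hb : b ∉ T) {ω : Finset (Sym2 V)} {y : V}
    (h : y ∈ cl T b ω) : y ∉ T := by
  rw [mem_cl] at h
  induction h with
  | refl => exact hb
  | tail _ h2 _ => exact h2.2.2

/-- the event that the cluster of `b` off `T` is `B0` depends only on the edges touching `B0` -/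
theorem cl_eq_iff {T : Set V} {b : V} (B0 : Finset V) (ω : Finset (Sym2 V)) :
    cl T b ω = B0 ↔ cl T b (ω ∩ touch B0) = B0 := by
  constructor
  · intro h
    apply Finset.Subset.antisymm
    · intro y hy
      rw [mem_cl] at hy
      rw [← h, mem_cl]
      exact con_mono Finset.inter_subset_left (Set.Subset.refl T) hy
    · intro y hy
      rw [← h, mem_cl] at hy
      rw [mem_cl]
      induction hy with
      | refl => exact Relation.ReflTransGen.refl
      | @tail z w hz hzw ih =>
        refine Relation.ReflTransGen.tail ih ?_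
        refine ⟨Finset.mem_inter.2 ⟨hzw.1, mem_touch.2 ⟨z, ?_, Sym2.mem_mk_left z w⟩⟩, hzw.2⟩
        rw [← h, mem_cl]; exact hz
  · intro h
    apply Finset.Subset.antisymm
    · intro y hy
      rw [mem_cl] at hy
      induction hy with
      | refl => rw [← h]; exact mem_cl.2 Relation.ReflTransGen.refl
      | @tail z w hz hzw ih =>
        rw [← h, mem_cl]
        have hz' : con (ω ∩ touch B0) T b z := by rw [← h, mem_cl] at ih; exact ih
        refine Relation.ReflTransGen.tail hz' ?_
        exact ⟨Finset.mem_inter.2 ⟨hzw.1, mem_touch.2 ⟨z, ih, Sym2.mem_mk_left z w⟩⟩, hzw.2⟩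
    · intro y hy
      rw [← h, mem_cl] at hy
      rw [mem_cl]
      exact con_mono Finset.inter_subset_left (Set.Subset.refl T) hy

/-- no vertex of `T` is connected to `c` by edges not touching `B0` -/
def Psi (T : Set V) (c : V) (B0 : Finset V) (ω : Finset (Sym2 V)) : Prop :=
  ∀ t ∈ T, ¬ con (ω \ touch B0) ∅ t c

/-- the deterministic part of the main lemma -/
theorem sep {T : Set V} {a b c : V} (haT : a ∈ T) (hbT : b ∉ T) {ω : Finset (Sym2 V)}
    (has : ∀ t ∈ T, con ω ∅ a t) (hc : c ∉ cl T b ω)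
    (hty : ∃ t ∈ T, ∃ y ∈ cl T b ω, s(t, y) ∈ ω) (hPsi : Psi T c (cl T b ω) ω) :
    con ω ∅ a b ∧ ¬ con ω ∅ a c := by
  obtain ⟨t, ht, y, hy, hty⟩ := hty
  constructor
  · refine con_trans (has t ht) ?_
    refine con_trans (y := y) (Relation.ReflTransGen.single ⟨hty, by simp, by simp⟩) ?_
    exact con_symm (con_mono (Finset.Subset.refl ω) (Set.empty_subset T) (mem_cl.1 hy))
  · intro hac
    -- the set reachable from `c` off `touch`
    have key : ∀ z, con ω ∅ c z → con (ω \ touch (cl T b ω)) ∅ c z := by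
      intro z hz
      induction hz with
      | refl => exact Relation.ReflTransGen.refl
      | @tail z w hz hzw ih =>
        refine Relation.ReflTransGen.tail ih ⟨?_, by simp, by simp⟩
        rw [Finset.mem_sdiff]
        refine ⟨hzw.1, ?_⟩
        intro hcon
        rw [mem_touch] at hcon
        obtain ⟨u, hu, huzw⟩ := hcon
        -- `z` is not in the cluster
        have hzB : z ∉ cl T b ω := by
          have : z ∉ cl T b ω := by
            have hind : ∀ z, con (ω \ touch (cl T b ω)) ∅ c z → z ∉ cl T b ω := by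
              intro z hz
              induction hz with
              | refl => exact hc
              | @tail z w _ hzw _ =>
                intro hw
                have := (Finset.mem_sdiff.1 hzw.1).2
                exact this (mem_touch.2 ⟨w, hw, Sym2.mem_mk_right z w⟩)
            exact hind z ih
          exact this
        have hzT : z ∉ T := fun hz' => hPsi z hz' (con_symm ih)
        rw [Sym2.mem_iff] at huzw
        rcases huzw with rfl | rfl
        · exact hzB hu
        · have huT := notMem_of_cl hbT hu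
          apply hzB
          rw [mem_cl] at hu ⊢
          exact Relation.ReflTransGen.tail hu (adj_symm ⟨hzw.1, hzT, huT⟩)
    exact hPsi a haT (con_symm (key a (con_symm hac)))

/-- **main lemma** -/
theorem core {p : Sym2 V → ℝ} (hp : Adm p) {T : Set V} {a b c : V} (haT : a ∈ T) (hbT : b ∉ T)
    (has : ∀ ω, wt p ω ≠ 0 → ∀ t ∈ T, con ω ∅ a t) (Q : Finset V → Finset (Sym2 V) → Prop)
    (hQ1 : ∀ B0 ω, Q B0 ω ↔ Q B0 (ω ∩ touch B0))
    (hQ2 : ∀ B0 ω, Q B0 ω → c ∉ B0 ∧ ∃ t ∈ T, ∃ y ∈ B0, s(t, y) ∈ ω)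
    {lam : ℝ} (hl : ∀ B0, (∃ ω, Q B0 ω) → lam ≤ Pr p (Psi T c B0)) :
    lam * Pr p (fun ω => Q (cl T b ω) ω) ≤ Pr p (fun ω => con ω ∅ a b ∧ ¬ con ω ∅ a c) := by
  rw [← Pr_sum p (cl T b) Q, Finset.mul_sum]
  have h1 : ∀ B0 ∈ (univ : Finset (Finset V)),
      lam * Pr p (fun ω => cl T b ω = B0 ∧ Q B0 ω)
        ≤ Pr p (fun ω => cl T b ω = B0 ∧ (Q B0 ω ∧ Psi T c B0 ω)) := by
    intro B0 _
    by_cases hex : ∃ ω, Q B0 ω
    · have hind : Pr p (fun ω => (cl T b ω = B0 ∧ Q B0 ω) ∧ Psi T c B0 ω)
          = Pr p (fun ω => cl T b ω = B0 ∧ Q B0 ω) * Pr p (Psi T c B0) := by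
        apply Pr_indep (touch B0)
        · intro ω
          rw [cl_eq_iff B0 ω, hQ1 B0 ω]
        · intro ω
          unfold Psi
          have : (ω \ touch B0) \ touch B0 = ω \ touch B0 := by
            ext f; simp only [Finset.mem_sdiff]; tauto
          rw [this]
      have hcg : Pr p (fun ω => cl T b ω = B0 ∧ (Q B0 ω ∧ Psi T c B0 ω))
          = Pr p (fun ω => (cl T b ω = B0 ∧ Q B0 ω) ∧ Psi T c B0 ω) :=
        Pr_congr hp fun ω _ => by tauto
      rw [hcg, hind, mul_comm lam]
      exact mul_le_mul_of_nonneg_left (hl B0 hex) (Pr_nonneg hp _)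
    · have h0 : Pr p (fun ω => cl T b ω = B0 ∧ Q B0 ω) = 0 := by
        unfold Pr
        apply Finset.sum_eq_zero
        intro ω _
        rw [if_neg]
        rintro ⟨_, h⟩
        exact hex ⟨ω, h⟩
      rw [h0, mul_zero]
      exact Pr_nonneg hp _
  refine (Finset.sum_le_sum h1).trans ?_
  rw [Pr_sum p (cl T b) (fun B0 ω => Q B0 ω ∧ Psi T c B0 ω)]
  apply Pr_mono hp
  rintro ω hw ⟨hQ, hPsi⟩
  obtain ⟨h2, h3⟩ := hQ2 _ _ hQ
  exact sep haT hbT (has ω hw) h2 h3 hPsi

end Conn

/-! ### The exploration -/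

section Main

variable {V : Type*} [Fintype V] [DecidableEq V]

/-- the vertices joined to `a` by edges which are almost surely open -/
def Tp (p : Sym2 V → ℝ) (a : V) : Set V :=
  {y | Relation.ReflTransGen (fun x y => p s(x, y) = 1) a y}

omit [Fintype V] [DecidableEq V] in
theorem Tp_self (p : Sym2 V → ℝ) (a : V) : a ∈ Tp p a := Relation.ReflTransGen.refl

theorem Tp_con {p : Sym2 V → ℝ} {a : V} {ω : Finset (Sym2 V)} (hw : wt p ω ≠ 0) :
    ∀ t ∈ Tp p a, con ω ∅ a t := by
  intro t ht
  induction ht with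
  | refl => exact Relation.ReflTransGen.refl
  | tail _ h2 ih => exact Relation.ReflTransGen.tail ih ⟨mem_of_wt hw h2, by simp, by simp⟩

omit [Fintype V] in
theorem Tp_zero {p : Sym2 V → ℝ} {a : V} {e : Sym2 V} (he : p e ≠ 1) :
    Tp (Function.update p e 0) a = Tp p a := by
  ext y
  constructor
  · intro h
    induction h with
    | refl => exact Relation.ReflTransGen.refl
    | @tail z w _ h2 ih =>
      refine Relation.ReflTransGen.tail ih ?_
      by_cases hzw : s(z, w) = e
      · rw [hzw, Function.update_self] at h2; norm_num at h2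
      · rwa [Function.update_of_ne hzw] at h2
  · intro h
    induction h with
    | refl => exact Relation.ReflTransGen.refl
    | @tail z w _ h2 ih =>
      refine Relation.ReflTransGen.tail ih ?_
      by_cases hzw : s(z, w) = e
      · rw [hzw] at h2; exact absurd h2 he
      · rwa [Function.update_of_ne hzw]

omit [Fintype V] in
theorem Tp_one (p : Sym2 V → ℝ) (a : V) (e : Sym2 V) :
    Tp p a ⊆ Tp (Function.update p e 1) a := by
  intro y h
  induction h with
  | refl => exact Relation.ReflTransGen.refl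
  | @tail z w _ h2 ih =>
    refine Relation.ReflTransGen.tail ih ?_
    by_cases hzw : s(z, w) = e
    · rw [hzw, Function.update_self]
    · rwa [Function.update_of_ne hzw]

/-- `P(ac)` -/
noncomputable def PX (p : Sym2 V → ℝ) (a c : V) : ℝ := Pr p (fun ω => con ω ∅ a c)

/-- `P(ab|c)` -/
noncomputable def PW (p : Sym2 V → ℝ) (a b c : V) : ℝ :=
  Pr p (fun ω => con ω ∅ a b ∧ ¬ con ω ∅ a c)

/-- `P(abc)` -/
noncomputable def Px (p : Sym2 V → ℝ) (a b c : V) : ℝ :=
  Pr p (fun ω => con ω ∅ a c ∧ con ω ∅ b c)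

/-- `b` and `c` are connected off the sure cluster of `a` -/
noncomputable def PN (p : Sym2 V → ℝ) (a b c : V) : ℝ :=
  Pr p (fun ω => b ∉ Tp p a ∧ con ω (Tp p a) b c)

omit [Fintype V] in
theorem con_erase {T : Set V} {t v : V} (ht : t ∈ T) (ω : Finset (Sym2 V)) (b c : V) :
    con ω T b c ↔ con (ω.erase s(t, v)) T b c := by
  constructor
  · intro h
    induction h with
    | refl => exact Relation.ReflTransGen.refl
    | @tail z w _ h2 ih =>
      refine Relation.ReflTransGen.tail ih ⟨Finset.mem_erase.2 ⟨?_, h2.1⟩, h2.2⟩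
      intro heq
      rw [Sym2.eq_iff] at heq
      rcases heq with ⟨h3, _⟩ | ⟨_, h3⟩
      · exact h2.2.1 (h3 ▸ ht)
      · exact h2.2.2 (h3 ▸ ht)
  · intro h
    exact con_mono (Finset.erase_subset _ _) (Set.Subset.refl T) h

theorem exit_edge {T : Set V} {b c : V} {ω : Finset (Sym2 V)} (h : con ω ∅ b c) :
    c ∈ cl T b ω ∨ ∃ z ∈ cl T b ω, ∃ w, w ∉ cl T b ω ∧ s(z, w) ∈ ω := by
  induction h with
  | refl => left; exact mem_cl.2 Relation.ReflTransGen.refl
  | @tail z w _ h2 ih =>
    rcases ih with ih | ih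
    · by_cases hw : w ∈ cl T b ω
      · exact Or.inl hw
      · exact Or.inr ⟨z, ih, w, hw, h2.1⟩
    · exact Or.inr ih

/-- the key estimate when the edge `s(t, v)` is opened -/
theorem key {p : Sym2 V → ℝ} (hp : Adm p) {a b c t v : V} (ht : t ∈ Tp p a) (hb : b ∉ Tp p a)
    {κ : ℝ} (hκ : 0 < κ) (hX : κ ≤ 1 - PX p a c) :
    Pr (Function.update p s(t, v) 1) (fun ω => con ω ∅ b c)
      ≤ PN p a b c + PW (Function.update p s(t, v) 1) a b c / κ + PW p a b c / κ := by
  have hp1 : Adm (Function.update p s(t, v) 1) := hp.update _ ⟨zero_le_one, le_rfl⟩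
  set T := Tp p a with hT
  set p1 := Function.update p s(t, v) 1 with hp1def
  have haT : a ∈ T := Tp_self p a
  have hPsi : ∀ B0, κ ≤ Pr p (Psi T c B0) := by
    intro B0
    have h1 : 1 - PX p a c = Pr p (fun ω => ¬ con ω ∅ a c) := (Pr_not p _).symm
    rw [h1] at hX
    refine hX.trans (Pr_mono hp ?_)
    intro ω hw h t' ht' hcon
    exact h (con_trans (Tp_con hw t' ht')
      (con_mono Finset.sdiff_subset (Set.Subset.refl _) hcon))
  -- case (b)
  have hb1 : κ * Pr p1 (fun ω => c ∉ cl T b ω ∧ v ∈ cl T b ω ∧ s(t, v) ∈ ω) ≤ PW p1 a b c := by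
    refine core (p := p1) hp1 haT hb ?_ (fun B0 ω => c ∉ B0 ∧ v ∈ B0 ∧ s(t, v) ∈ ω) ?_ ?_ ?_
    · intro ω hw t' ht'
      exact Tp_con hw t' (Tp_one p a _ ht')
    · intro B0 ω
      constructor
      · rintro ⟨h1, h2, h3⟩
        exact ⟨h1, h2, Finset.mem_inter.2 ⟨h3, mem_touch.2 ⟨v, h2, Sym2.mem_mk_right t v⟩⟩⟩
      · rintro ⟨h1, h2, h3⟩
        exact ⟨h1, h2, (Finset.mem_inter.1 h3).1⟩
    · rintro B0 ω ⟨h1, h2, h3⟩
      exact ⟨h1, t, ht, v, h2, h3⟩
    · rintro B0 ⟨ω0, _, hv0, _⟩
      have : Pr p1 (Psi T c B0) = Pr p (Psi T c B0) := by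
        apply Pr_update_eq
        intro ω
        unfold Psi
        have : ω.erase s(t, v) \ touch B0 = ω \ touch B0 := by
          ext f
          simp only [Finset.mem_sdiff, Finset.mem_erase]
          constructor
          · rintro ⟨⟨_, h1⟩, h2⟩; exact ⟨h1, h2⟩
          · rintro ⟨h1, h2⟩
            refine ⟨⟨?_, h1⟩, h2⟩
            rintro rfl
            exact h2 (mem_touch.2 ⟨v, hv0, Sym2.mem_mk_right t v⟩)
        rw [this]
      rw [this]
      exact hPsi B0
  -- case (c)
  have hc1 : κ * Pr p (fun ω => c ∉ cl T b ω ∧ v ∉ cl T b ω ∧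
      ∃ t' ∈ T, ∃ y ∈ cl T b ω, s(t', y) ∈ ω) ≤ PW p a b c := by
    refine core (p := p) hp haT hb ?_
      (fun B0 ω => c ∉ B0 ∧ v ∉ B0 ∧ ∃ t' ∈ T, ∃ y ∈ B0, s(t', y) ∈ ω) ?_ ?_ ?_
    · intro ω hw t' ht'
      exact Tp_con hw t' ht'
    · intro B0 ω
      constructor
      · rintro ⟨h1, h2, t', ht', y, hy, h3⟩
        exact ⟨h1, h2, t', ht', y, hy, Finset.mem_inter.2 ⟨h3, mem_touch.2 ⟨y, hy,
          Sym2.mem_mk_right t' y⟩⟩⟩
      · rintro ⟨h1, h2, t', ht', y, hy, h3⟩
        exact ⟨h1, h2, t', ht', y, hy, (Finset.mem_inter.1 h3).1⟩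
    · rintro B0 ω ⟨h1, _, h3⟩
      exact ⟨h1, h3⟩
    · intro B0 _
      exact hPsi B0
  have hclE : ∀ ω : Finset (Sym2 V), cl T b (ω.erase s(t, v)) = cl T b ω := by
    intro ω
    ext y
    rw [mem_cl, mem_cl]
    exact (con_erase ht ω b y).symm
  have hc2 : Pr p1 (fun ω => c ∉ cl T b ω ∧ v ∉ cl T b ω ∧
      ∃ t' ∈ T, ∃ y ∈ cl T b ω, s(t', y) ∈ ω)
      = Pr p (fun ω => c ∉ cl T b ω ∧ v ∉ cl T b ω ∧
      ∃ t' ∈ T, ∃ y ∈ cl T b ω, s(t', y) ∈ ω) := by
    apply Pr_update_eq
    intro ω
    rw [hclE ω]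
    constructor
    · rintro ⟨h1, h2, t', ht', y, hy, h3⟩
      refine ⟨h1, h2, t', ht', y, hy, Finset.mem_erase.2 ⟨?_, h3⟩⟩
      intro heq
      rw [Sym2.eq_iff] at heq
      rcases heq with ⟨_, h4⟩ | ⟨_, h4⟩
      · exact h2 (h4 ▸ hy)
      · exact notMem_of_cl hb hy (h4 ▸ ht)
    · rintro ⟨h1, h2, t', ht', y, hy, h3⟩
      exact ⟨h1, h2, t', ht', y, hy, Finset.mem_of_mem_erase h3⟩
  have ha1 : Pr p1 (fun ω => con ω T b c) = PN p a b c := by
    have h1 : Pr p1 (fun ω => con ω T b c) = Pr p (fun ω => con ω T b c) := by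
      apply Pr_update_eq
      intro ω
      exact con_erase ht ω b c
    rw [h1]
    unfold PN
    exact Pr_congr hp fun ω _ => ⟨fun h => ⟨hb, h⟩, fun h => h.2⟩
  have h3 : Pr p1 (fun ω => con ω ∅ b c) ≤ Pr p1 (fun ω => con ω T b c)
      + Pr p1 (fun ω => c ∉ cl T b ω ∧ v ∈ cl T b ω ∧ s(t, v) ∈ ω)
      + Pr p1 (fun ω => c ∉ cl T b ω ∧ v ∉ cl T b ω ∧
      ∃ t' ∈ T, ∃ y ∈ cl T b ω, s(t', y) ∈ ω) := by
    apply Pr_le_add3 hp1
    intro ω hw hbc
    have he : s(t, v) ∈ ω := mem_of_wt hw (Function.update_self _ _ _)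
    by_cases h1 : c ∈ cl T b ω
    · exact Or.inl (mem_cl.1 h1)
    · right
      by_cases h2 : v ∈ cl T b ω
      · exact Or.inl ⟨h1, h2, he⟩
      · right
        refine ⟨h1, h2, ?_⟩
        rcases exit_edge (T := T) hbc with h | ⟨z, hz, w, hw', hzw⟩
        · exact absurd h h1
        · have hzT := notMem_of_cl hb hz
          have hwT : w ∈ T := by
            by_contra hcon
            apply hw'
            rw [mem_cl] at hz ⊢
            exact Relation.ReflTransGen.tail hz ⟨hzw, hzT, hcon⟩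
          exact ⟨w, hwT, z, hz, by rw [Sym2.eq_swap]; exact hzw⟩
  rw [ha1, hc2] at h3
  have hb1' := (le_div_iff₀' hκ).2 hb1
  have hc1' := (le_div_iff₀' hκ).2 hc1
  linarith

/-- the inequality proved by induction -/
def Claim (κ η q : ℝ) (a b c : V) (p : Sym2 V → ℝ) : Prop :=
  PX p a c < 1 - κ → PN p a b c ≤ q →
    Px p a b c ≤ PW p a b c / η + (q + 2 * η / κ) * (PX p a c / (1 - κ))

theorem step {κ η q : ℝ} (hη : 0 < η) (hηκ : η ≤ κ) (hκ1 : κ < 1) (hq : 0 ≤ q) {a b c : V}
    {p : Sym2 V → ℝ} (hp : Adm p)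
    (IH : ∀ e, p e ≠ 0 → p e ≠ 1 → Claim κ η q a b c (Function.update p e 0) ∧
      Claim κ η q a b c (Function.update p e 1)) : Claim κ η q a b c p := by
  intro hX hN
  have hκ : 0 < κ := lt_of_lt_of_le hη hηκ
  have h1κ : 0 < 1 - κ := by linarith
  have hA : 0 ≤ q + 2 * η / κ := by positivity
  -- trivial case
  have triv : ∀ p' : Sym2 V → ℝ, Adm p' → η < PW p' a b c →
      Px p' a b c ≤ PW p' a b c / η + (q + 2 * η / κ) * (PX p' a c / (1 - κ)) := by
    intro p' hp' hW
    have h1 : Px p' a b c ≤ 1 := Pr_le_one hp' _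
    have h2 : 1 ≤ PW p' a b c / η := by rw [le_div_iff₀ hη]; linarith
    have h3 : 0 ≤ PX p' a c := Pr_nonneg hp' _
    have h4 : 0 ≤ (q + 2 * η / κ) * (PX p' a c / (1 - κ)) := by positivity
    linarith
  by_cases hW : η < PW p a b c
  · exact triv p hp hW
  push Not at hW
  have hcT : c ∉ Tp p a := by
    intro h
    have : PX p a c = 1 := by
      rw [← Pr_true p]
      exact Pr_congr hp fun ω hw => ⟨fun _ => trivial, fun _ => Tp_con hw c h⟩
    linarith
  have hbT : b ∉ Tp p a := by
    intro h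
    have h1 : PW p a b c = 1 - PX p a c := by
      have h2 : Pr p (fun ω => ¬ con ω ∅ a c) = 1 - PX p a c := Pr_not p _
      rw [← h2]
      exact Pr_congr hp fun ω hw => ⟨fun h3 => h3.2, fun h3 => ⟨Tp_con hw b h, h3⟩⟩
    linarith
  by_cases hex : ∃ t ∈ Tp p a, ∃ v, v ∉ Tp p a ∧ p s(t, v) ≠ 0
  · obtain ⟨t, ht, v, hv, he0⟩ := hex
    have he1 : p s(t, v) ≠ 1 := fun h => hv (Relation.ReflTransGen.tail ht h)
    obtain ⟨IH0, IH1⟩ := IH _ he0 he1
    have hpe := hp s(t, v)
    have hp0 : Adm (Function.update p s(t, v) 0) := hp.update _ ⟨le_rfl, zero_le_one⟩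
    have hp1 : Adm (Function.update p s(t, v) 1) := hp.update _ ⟨zero_le_one, le_rfl⟩
    have eX : PX p a c = p s(t, v) * PX (Function.update p s(t, v) 1) a c
        + (1 - p s(t, v)) * PX (Function.update p s(t, v) 0) a c := Pr_update p _ _
    have eW : PW p a b c = p s(t, v) * PW (Function.update p s(t, v) 1) a b c
        + (1 - p s(t, v)) * PW (Function.update p s(t, v) 0) a b c := Pr_update p _ _
    have ex : Px p a b c = p s(t, v) * Px (Function.update p s(t, v) 1) a b c
        + (1 - p s(t, v)) * Px (Function.update p s(t, v) 0) a b c := Pr_update p _ _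
    have hmono : PX (Function.update p s(t, v) 0) a c ≤ PX (Function.update p s(t, v) 1) a c := by
      apply Pr_le_update hp
      intro ω h
      exact con_mono (Finset.subset_insert _ _) (Set.Subset.refl _) h
    have hX0 : PX (Function.update p s(t, v) 0) a c ≤ PX p a c := by
      rw [eX]; nlinarith [hpe.1, hpe.2, hmono]
    have c0 := IH0 (lt_of_le_of_lt hX0 hX) (by
      refine le_trans (le_of_eq ?_) hN
      unfold PN
      rw [Tp_zero he1]
      apply Pr_update_eq
      intro ω
      rw [← con_erase ht ω b c])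
    have c1 : Px (Function.update p s(t, v) 1) a b c
        ≤ PW (Function.update p s(t, v) 1) a b c / η
          + (q + 2 * η / κ) * (PX (Function.update p s(t, v) 1) a c / (1 - κ)) := by
      by_cases hW1 : η < PW (Function.update p s(t, v) 1) a b c
      · exact triv _ hp1 hW1
      push Not at hW1
      by_cases hX1 : PX (Function.update p s(t, v) 1) a c < 1 - κ
      · apply IH1 hX1
        refine le_trans ?_ hN
        have h1 : PN p a b c = Pr (Function.update p s(t, v) 1)
            (fun ω => b ∉ Tp p a ∧ con ω (Tp p a) b c) := by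
          unfold PN
          symm
          apply Pr_update_eq
          intro ω
          rw [← con_erase ht ω b c]
        rw [h1]
        unfold PN
        apply Pr_mono hp1
        rintro ω _ ⟨h2, h3⟩
        exact ⟨fun h => h2 (Tp_one p a _ h),
          con_mono (Finset.Subset.refl _) (Tp_one p a _) h3⟩
      · push Not at hX1
        have h1 := key (v := v) hp ht hbT hκ (c := c) (by linarith)
        have h2 : Px (Function.update p s(t, v) 1) a b c
            ≤ Pr (Function.update p s(t, v) 1) (fun ω => con ω ∅ b c) :=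
          Pr_mono hp1 fun ω _ h => h.2
        have h3 : PW p a b c / κ ≤ η / κ := div_le_div_of_nonneg_right hW hκ.le
        have h4 : PW (Function.update p s(t, v) 1) a b c / κ ≤ η / κ :=
          div_le_div_of_nonneg_right hW1 hκ.le
        have h5 : Px (Function.update p s(t, v) 1) a b c ≤ q + 2 * η / κ := by
          have : 2 * η / κ = η / κ + η / κ := by ring
          rw [this]; linarith
        have h6 : 1 ≤ PX (Function.update p s(t, v) 1) a c / (1 - κ) := by
          rw [le_div_iff₀ h1κ]; linarith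
        have h7 : 0 ≤ PW (Function.update p s(t, v) 1) a b c / η :=
          div_nonneg (Pr_nonneg hp1 _) hη.le
        have h8 : q + 2 * η / κ
            ≤ (q + 2 * η / κ) * (PX (Function.update p s(t, v) 1) a c / (1 - κ)) :=
          le_mul_of_one_le_right hA h6
        linarith
    have hq0 : 0 ≤ 1 - p s(t, v) := by linarith [hpe.2]
    have m0 := mul_le_mul_of_nonneg_left c0 hq0
    have m1 := mul_le_mul_of_nonneg_left c1 hpe.1
    have hfin : PW p a b c / η + (q + 2 * η / κ) * (PX p a c / (1 - κ))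
        = p s(t, v) * (PW (Function.update p s(t, v) 1) a b c / η
          + (q + 2 * η / κ) * (PX (Function.update p s(t, v) 1) a c / (1 - κ)))
        + (1 - p s(t, v)) * (PW (Function.update p s(t, v) 0) a b c / η
          + (q + 2 * η / κ) * (PX (Function.update p s(t, v) 0) a c / (1 - κ))) := by
      rw [eW, eX]; ring
    rw [hfin, ex]
    linarith
  · push Not at hex
    have h0 : Px p a b c ≤ Pr p (fun _ => False) := by
      apply Pr_mono hp
      rintro ω hw ⟨h1, _⟩
      apply hcT
      have : ∀ z, con ω ∅ a z → z ∈ Tp p a := by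
        intro z hz
        induction hz with
        | refl => exact Tp_self p a
        | @tail z w _ h2 ih =>
          by_contra hcon
          exact notMem_of_wt hw (hex z ih w hcon) h2.1
      exact this c h1
    have h00 : Pr p (fun _ : Finset (Sym2 V) => False) = 0 := by
      unfold Pr; simp
    have h1 : 0 ≤ PW p a b c / η := div_nonneg (Pr_nonneg hp _) hη.le
    have h3 : 0 ≤ PX p a c := Pr_nonneg hp _
    have h4 : 0 ≤ (q + 2 * η / κ) * (PX p a c / (1 - κ)) := by positivity
    linarith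

theorem ind {κ η q : ℝ} (hη : 0 < η) (hηκ : η ≤ κ) (hκ1 : κ < 1) (hq : 0 ≤ q) {a b c : V} :
    ∀ n : ℕ, ∀ p : Sym2 V → ℝ, Adm p →
      (univ.filter fun e => p e ≠ 0 ∧ p e ≠ 1).card = n → Claim κ η q a b c p := by
  intro n
  induction n using Nat.strong_induction_on with
  | _ n ih =>
    intro p hp hcard
    apply step hη hηκ hκ1 hq hp
    intro e he0 he1
    have hlt : ∀ x : ℝ, (x = 0 ∨ x = 1) →
        (univ.filter fun f => Function.update p e x f ≠ 0 ∧ Function.update p e x f ≠ 1).card
          < n := by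
      intro x hx
      rw [← hcard]
      apply Finset.card_lt_card
      rw [Finset.ssubset_iff_of_subset]
      · refine ⟨e, by simp [he0, he1], ?_⟩
        simp only [Finset.mem_filter, Finset.mem_univ, true_and, Function.update_self]
        rcases hx with rfl | rfl <;> simp
      · intro f hf
        simp only [Finset.mem_filter, Finset.mem_univ, true_and] at hf ⊢
        by_cases hfe : f = e
        · subst hfe
          rw [Function.update_self] at hf
          rcases hx with rfl | rfl
          · exact absurd rfl hf.1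
          · exact absurd rfl hf.2
        · rwa [Function.update_of_ne hfe] at hf
    exact ⟨ih _ (hlt 0 (Or.inl rfl)) _ (hp.update _ ⟨le_rfl, zero_le_one⟩) rfl,
      ih _ (hlt 1 (Or.inr rfl)) _ (hp.update _ ⟨zero_le_one, le_rfl⟩) rfl⟩

/-- **main estimate** -/
theorem cov_le {p : Sym2 V → ℝ} (hp : Adm p) (a b c : V) {κ η : ℝ} (hη : 0 < η) (hηκ : η ≤ κ)
    (hκ1 : κ < 1) :
    Px p a b c - PX p a c * Pr p (fun ω => con ω ∅ b c) ≤ κ + PW p a b c / η + 2 * η / κ := by
  have hκ : 0 < κ := lt_of_lt_of_le hη hηκ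
  have h1κ : 0 < 1 - κ := by linarith
  set M := Pr p (fun ω => con ω ∅ b c) with hM
  have hM0 : 0 ≤ M := Pr_nonneg hp _
  have hM1 : M ≤ 1 := Pr_le_one hp _
  have hX0 : 0 ≤ PX p a c := Pr_nonneg hp _
  have hW0 : 0 ≤ PW p a b c := Pr_nonneg hp _
  by_cases hX : PX p a c < 1 - κ
  · have hN : PN p a b c ≤ M :=
      Pr_mono hp fun ω _ h => con_mono (Finset.Subset.refl _) (Set.empty_subset _) h.2
    have h := ind (a := a) (b := b) (c := c) hη hηκ hκ1 hM0 _ p hp rfl hX hN
    have h1 : PX p a c / (1 - κ) ≤ 1 := by rw [div_le_one h1κ]; linarith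
    have h1' : 0 ≤ PX p a c / (1 - κ) := div_nonneg hX0 h1κ.le
    have h2 : PX p a c / (1 - κ) - PX p a c = κ * (PX p a c / (1 - κ)) := by
      field_simp; ring
    have h3 : 0 ≤ 2 * η / κ := by positivity
    have h4 : (M + 2 * η / κ) * (PX p a c / (1 - κ)) - PX p a c * M
        = M * (κ * (PX p a c / (1 - κ))) + 2 * η / κ * (PX p a c / (1 - κ)) := by
      rw [← h2]; ring
    have h5 : M * (κ * (PX p a c / (1 - κ))) ≤ κ := by
      have : κ * (PX p a c / (1 - κ)) ≤ κ := mul_le_of_le_one_right hκ.le h1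
      have h6 : 0 ≤ κ * (PX p a c / (1 - κ)) := by positivity
      nlinarith
    have h7 : 2 * η / κ * (PX p a c / (1 - κ)) ≤ 2 * η / κ := mul_le_of_le_one_right h3 h1
    linarith
  · push Not at hX
    have h1 : Px p a b c ≤ M := Pr_mono hp fun ω _ h => h.2
    have h2 : 0 ≤ PW p a b c / η := div_nonneg hW0 hη.le
    have h3 : 0 ≤ 2 * η / κ := by positivity
    nlinarith

end Main

end Pool.Agent.R113.Perc
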