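import Mathlib
import Pool.Agent.R113.Perc

/-!
# Percolation on a finite simple graph: passage from `Pool.Agent.R113.Perc`
-/

set_option autoImplicit false

open Finset

namespace Pool.Agent.R113.PercG

open Pool.Agent.R113.Perc

variable {V : Type*}

/-- `a` and `b` lie in one cluster of the open edges `ω` -/
def Conn (ω : Finset (Sym2 V)) (a b : V) : Prop :=
  (SimpleGraph.fromEdgeSet (ω : Set (Sym2 V))).Reachable a b

open Classical in
/-- the probability of the event `A` in Bernoulli bond percolation with edge probabilities `p` on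
the finite set of edges `F` -/
noncomputable def P (F : Finset (Sym2 V)) (p : Sym2 V → ℝ) (A : Finset (Sym2 V) → Prop) : ℝ :=
  ∑ ω ∈ F.powerset, if A ω then (∏ e ∈ ω, p e) * ∏ e ∈ F \ ω, (1 - p e) else 0

theorem conn_iff (ω : Finset (Sym2 V)) (a b : V) : Conn ω a b ↔ con ω ∅ a b := by
  unfold Conn
  rw [SimpleGraph.reachable_iff_reflTransGen]
  constructor
  · intro h
    induction h with
    | refl => exact Relation.ReflTransGen.refl
    | @tail z w _ h2 ih =>
      rw [SimpleGraph.fromEdgeSet_adj] at h2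
      exact Relation.ReflTransGen.tail ih ⟨Finset.mem_coe.1 h2.1, by simp, by simp⟩
  · intro h
    induction h with
    | refl => exact Relation.ReflTransGen.refl
    | @tail z w _ h2 ih =>
      by_cases hzw : z = w
      · rw [← hzw]; exact ih
      · refine Relation.ReflTransGen.tail ih ?_
        rw [SimpleGraph.fromEdgeSet_adj]
        exact ⟨Finset.mem_coe.2 h2.1, hzw⟩

open Classical in
/-- the edge probabilities, `0` off `F` -/
noncomputable def ext0 (F : Finset (Sym2 V)) (p : Sym2 V → ℝ) : Sym2 V → ℝ :=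
  fun e => if e ∈ F then p e else 0

theorem P_eq [Fintype V] [DecidableEq V] (F : Finset (Sym2 V)) (p : Sym2 V → ℝ)
    (A : Finset (Sym2 V) → Prop) : P F p A = Pr (ext0 F p) A := by
  classical
  unfold P Pr
  rw [← Finset.sum_subset (Finset.subset_univ F.powerset)]
  · apply Finset.sum_congr rfl
    intro ω hω
    rw [Finset.mem_powerset] at hω
    by_cases hA : A ω
    · rw [if_pos hA, if_pos hA]
      unfold wt
      rw [← Finset.prod_sdiff (Finset.subset_univ F)]
      have h1 : ∏ e ∈ univ \ F, (if e ∈ ω then ext0 F p e else 1 - ext0 F p e) = 1 := by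
        apply Finset.prod_eq_one
        intro e he
        have heF := (Finset.mem_sdiff.1 he).2
        rw [if_neg (fun h => heF (hω h))]
        unfold ext0
        rw [if_neg heF, sub_zero]
      rw [h1, one_mul, ← Finset.prod_sdiff hω, mul_comm]
      congr 1
      · apply Finset.prod_congr _ (fun _ _ => ?_)
        · ext e; simp only [Finset.mem_sdiff]
        · rename_i e he
          have h2 := Finset.mem_sdiff.1 he
          rw [if_neg h2.2]
          unfold ext0
          rw [if_pos h2.1]
      · apply Finset.prod_congr rfl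
        intro e he
        rw [if_pos he]
        unfold ext0
        rw [if_pos (hω he)]
    · rw [if_neg hA, if_neg hA]
  · intro ω _ hω
    rw [Finset.mem_powerset] at hω
    split_ifs
    · obtain ⟨e, he, heF⟩ := Finset.not_subset.1 hω
      by_contra h
      have h0 : ext0 F p e = 0 := by unfold ext0; rw [if_neg heF]
      exact notMem_of_wt h h0 he
    · rfl

theorem ext0_adm (F : Finset (Sym2 V)) (p : Sym2 V → ℝ) (hp : ∀ e ∈ F, 0 ≤ p e ∧ p e ≤ 1) :
    Adm (ext0 F p) := by
  intro e
  unfold ext0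
  split_ifs with h
  · exact hp e h
  · exact ⟨le_rfl, zero_le_one⟩

/-- the cubic form of the estimate -/
theorem cube_le {x w : ℝ} (hw0 : 0 ≤ w) (hx1 : x ≤ 1)
    (h : ∀ κ η : ℝ, 0 < η → η ≤ κ → κ < 1 → x ≤ κ + w / η + 2 * η / κ) : x ^ 3 ≤ 54 * w := by
  rcases lt_or_ge x 0 with hx | hx
  · have : x ^ 3 ≤ 0 := by
      have := pow_pos (neg_pos.2 hx) 3
      nlinarith
    linarith
  -- a cube root
  obtain ⟨t, ht0, ht⟩ : ∃ t : ℝ, 0 ≤ t ∧ t ^ 3 = 2 * w := by
    refine ⟨(2 * w) ^ ((1 : ℝ) / 3), by positivity, ?_⟩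
    rw [← Real.rpow_natCast, ← Real.rpow_mul (by positivity)]
    norm_num
  rcases le_or_gt 1 t with h1 | h1
  · have h2 : (1 : ℝ) ≤ t ^ 3 := one_le_pow₀ h1
    have h3 : x ^ 3 ≤ 1 := pow_le_one₀ hx hx1
    linarith
  · rcases eq_or_lt_of_le ht0 with h2 | h2
    · -- `w = 0`
      have hw : w = 0 := by
        rw [← h2] at ht; linarith
      have hx' : x ≤ 0 := by
        by_contra hcon
        push Not at hcon
        have h3 := h (x / 4) ((x / 4) ^ 2) (by positivity) (by nlinarith) (by linarith)
        rw [hw, zero_div] at h3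
        have h4 : 2 * (x / 4) ^ 2 / (x / 4) = 2 * (x / 4) := by
          field_simp
        rw [h4] at h3
        linarith
      have : x = 0 := le_antisymm hx' hx
      rw [this, hw]; norm_num
    · have h3 := h t (t ^ 2 / 2) (by positivity) (by nlinarith) h1
      have h4 : w / (t ^ 2 / 2) = t := by
        rw [div_eq_iff (by positivity)]
        nlinarith
      have h5 : 2 * (t ^ 2 / 2) / t = t := by
        field_simp
      rw [h4, h5] at h3
      have h6 : x ≤ 3 * t := by linarith
      calc x ^ 3 ≤ (3 * t) ^ 3 := pow_le_pow_left₀ hx h6 3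
        _ = 54 * w := by rw [mul_pow, ht]; ring

/-- the estimate on a finite set of edges of a finite vertex set -/
theorem main [Fintype V] (F : Finset (Sym2 V)) (p : Sym2 V → ℝ)
    (hp : ∀ e ∈ F, 0 ≤ p e ∧ p e ≤ 1) (a b c : V) :
    (P F p (fun ω => Conn ω a b ∧ Conn ω a c)
      - P F p (fun ω => Conn ω a c) * P F p (fun ω => Conn ω b c)) ^ 3
      ≤ 54 * P F p (fun ω => Conn ω a b ∧ ¬ Conn ω a c) := by
  classical
  have hadm := ext0_adm F p hp
  simp only [P_eq]
  have e1 : Pr (ext0 F p) (fun ω => Conn ω a b ∧ Conn ω a c) = Px (ext0 F p) a b c := by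
    unfold Px
    apply Pr_congr hadm
    intro ω _
    rw [conn_iff, conn_iff]
    constructor
    · rintro ⟨h1, h2⟩; exact ⟨h2, con_trans (con_symm h1) h2⟩
    · rintro ⟨h1, h2⟩; exact ⟨con_trans h1 (con_symm h2), h1⟩
  have e2 : Pr (ext0 F p) (fun ω => Conn ω a c) = PX (ext0 F p) a c := by
    unfold PX; simp only [conn_iff]
  have e3 : Pr (ext0 F p) (fun ω => Conn ω b c) = Pr (ext0 F p) (fun ω => con ω ∅ b c) := by
    simp only [conn_iff]
  have e4 : Pr (ext0 F p) (fun ω => Conn ω a b ∧ ¬ Conn ω a c) = PW (ext0 F p) a b c := by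
    unfold PW; simp only [conn_iff]
  rw [e1, e2, e3, e4]
  apply cube_le (Pr_nonneg hadm _)
  · have h1 : Px (ext0 F p) a b c ≤ 1 := Pr_le_one hadm _
    have h2 : 0 ≤ PX (ext0 F p) a c * Pr (ext0 F p) (fun ω => con ω ∅ b c) :=
      mul_nonneg (Pr_nonneg hadm _) (Pr_nonneg hadm _)
    linarith
  · intro κ η hη hηκ hκ
    exact cov_le hadm a b c hη hηκ hκ

end Pool.Agent.R113.PercG
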