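import Mathlib
import Pool.Agent.R113.PercG

/-!
# Percolation on an infinite graph: passage to the limit
-/

set_option autoImplicit false

open Finset MeasureTheory

namespace Pool.Agent.R113.PercInf

open Pool.Agent.R113.PercG

universe u

variable {V : Type u} (G : SimpleGraph V)

/-- Bernoulli bond percolation: the product measure -/
noncomputable def perc (p : G.edgeSet → unitInterval) : Measure (G.edgeSet → Bool) :=
  Measure.infinitePi (fun e => ProbabilityTheory.bernoulliMeasure true false (p e))

instance (p : G.edgeSet → unitInterval) : IsProbabilityMeasure (perc G p) := by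
  unfold perc; infer_instance

/-- the open subgraph -/
def openG (ω : G.edgeSet → Bool) : SimpleGraph V :=
  SimpleGraph.fromEdgeSet {e | ∃ h : e ∈ G.edgeSet, ω ⟨e, h⟩ = true}

/-- adjacency by an open edge inside `S` -/
def adjS (ω : G.edgeSet → Bool) (S : Finset V) (x y : V) : Prop :=
  x ∈ S ∧ y ∈ S ∧ ∃ h : s(x, y) ∈ G.edgeSet, ω ⟨s(x, y), h⟩ = true

/-- connected by open edges inside `S` -/
def conS (ω : G.edgeSet → Bool) (S : Finset V) (x y : V) : Prop :=
  Relation.ReflTransGen (adjS G ω S) x y

open Classical in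
/-- the open edges inside `S` -/
noncomputable def RS (S : Finset V) (ω : G.edgeSet → Bool) : Finset (Sym2 S) :=
  univ.filter fun e => ∃ h : e.map Subtype.val ∈ G.edgeSet, ω ⟨e.map Subtype.val, h⟩ = true

open Classical in
/-- the edges inside `S` -/
noncomputable def FS (S : Finset V) : Finset (Sym2 S) :=
  univ.filter fun e => e.map Subtype.val ∈ G.edgeSet

open Classical in
/-- the edge probabilities inside `S` -/
noncomputable def pS (p : G.edgeSet → unitInterval) (S : Finset V) (e : Sym2 S) : ℝ :=
  if h : e.map Subtype.val ∈ G.edgeSet then (p ⟨_, h⟩ : ℝ) else 0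

variable {G}

theorem RS_subset (S : Finset V) (ω : G.edgeSet → Bool) : RS G S ω ⊆ FS G S := by
  intro e he
  simp only [RS, FS, Finset.mem_filter, Finset.mem_univ, true_and] at he ⊢
  exact he.1

theorem conS_iff (S : Finset V) (ω : G.edgeSet → Bool) {x y : V} (hx : x ∈ S) (hy : y ∈ S) :
    conS G ω S x y ↔ Conn (RS G S ω) ⟨x, hx⟩ ⟨y, hy⟩ := by
  unfold Conn
  rw [SimpleGraph.reachable_iff_reflTransGen]
  constructor
  · intro h
    have key : ∀ z, conS G ω S x z → ∀ hz : z ∈ S, Relation.ReflTransGen
        (SimpleGraph.fromEdgeSet (RS G S ω : Set (Sym2 S))).Adj ⟨x, hx⟩ ⟨z, hz⟩ := by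
      intro z hz
      induction hz with
      | refl => intro _; exact Relation.ReflTransGen.refl
      | @tail z w _ h2 ih =>
        intro hw
        obtain ⟨hz, _, h3, h4⟩ := h2
        refine Relation.ReflTransGen.tail (ih hz) ?_
        rw [SimpleGraph.fromEdgeSet_adj]
        constructor
        · simp only [RS, Finset.coe_filter, Finset.mem_univ, true_and, Set.mem_ofPred_eq,
            Sym2.map_mk]
          exact ⟨h3, h4⟩
        · intro heq
          have : z = w := congrArg Subtype.val heq
          subst this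
          exact G.loopless.irrefl z ((SimpleGraph.mem_edgeSet G).1 h3)
    exact key y h hy
  · intro h
    have key : ∀ z : S, Relation.ReflTransGen
        (SimpleGraph.fromEdgeSet (RS G S ω : Set (Sym2 S))).Adj ⟨x, hx⟩ z → conS G ω S x z := by
      intro z hz
      induction hz with
      | refl => exact Relation.ReflTransGen.refl
      | @tail z w _ h2 ih =>
        rw [SimpleGraph.fromEdgeSet_adj] at h2
        have h3 := h2.1
        simp only [RS, Finset.coe_filter, Finset.mem_univ, true_and, Set.mem_ofPred_eq,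
            Sym2.map_mk] at h3
        exact Relation.ReflTransGen.tail ih ⟨z.2, w.2, h3⟩
    exact key ⟨y, hy⟩ h

theorem conS_mono {S S' : Finset V} (h : S ⊆ S') {ω : G.edgeSet → Bool} {x y : V}
    (hc : conS G ω S x y) : conS G ω S' x y := by
  induction hc with
  | refl => exact Relation.ReflTransGen.refl
  | tail _ h2 ih => exact Relation.ReflTransGen.tail ih ⟨h h2.1, h h2.2.1, h2.2.2⟩

theorem reach_iff {S : ℕ → Finset V} (hS : Monotone S) (hU : ∀ v, ∃ n, v ∈ S n)
    (ω : G.edgeSet → Bool) (x y : V) :
    (openG G ω).Reachable x y ↔ ∃ n, conS G ω (S n) x y := by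
  rw [SimpleGraph.reachable_iff_reflTransGen]
  constructor
  · intro h
    induction h with
    | refl => exact ⟨0, Relation.ReflTransGen.refl⟩
    | @tail z w _ h2 ih =>
      obtain ⟨n, hn⟩ := ih
      obtain ⟨i, hi⟩ := hU z
      obtain ⟨j, hj⟩ := hU w
      refine ⟨max n (max i j), ?_⟩
      unfold openG at h2
      rw [SimpleGraph.fromEdgeSet_adj] at h2
      have h3 : ∃ h : s(z, w) ∈ G.edgeSet, ω ⟨s(z, w), h⟩ = true := h2.1
      refine Relation.ReflTransGen.tail (conS_mono (hS (le_max_left _ _)) hn) ⟨?_, ?_, h3⟩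
      · exact hS ((le_max_left i j).trans (le_max_right _ _)) hi
      · exact hS ((le_max_right i j).trans (le_max_right _ _)) hj
  · rintro ⟨n, hn⟩
    induction hn with
    | refl => exact Relation.ReflTransGen.refl
    | @tail z w _ h2 ih =>
      refine Relation.ReflTransGen.tail ih ?_
      unfold openG
      rw [SimpleGraph.fromEdgeSet_adj]
      refine ⟨h2.2.2, ?_⟩
      rintro rfl
      obtain ⟨_, _, h3, _⟩ := h2
      exact G.loopless.irrefl z ((SimpleGraph.mem_edgeSet G).1 h3)

theorem map_inj {S : Finset V} : Function.Injective (Sym2.map (Subtype.val : S → V)) :=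
  Sym2.map.injective Subtype.val_injective

theorem mem_FS {S : Finset V} {f : Sym2 S} : f ∈ FS G S ↔ f.map Subtype.val ∈ G.edgeSet := by
  simp only [FS, Finset.mem_filter, Finset.mem_univ, true_and]

theorem mem_RS {S : Finset V} {ω : G.edgeSet → Bool} {f : Sym2 S} :
    f ∈ RS G S ω ↔ ∃ h : f.map Subtype.val ∈ G.edgeSet, ω ⟨f.map Subtype.val, h⟩ = true := by
  simp only [RS, Finset.mem_filter, Finset.mem_univ, true_and]

/-- the edges inside `S` as edges of `G` -/
def emb (G : SimpleGraph V) (S : Finset V) : {f // f ∈ FS G S} ↪ G.edgeSet :=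
  ⟨fun f => ⟨f.1.map Subtype.val, mem_FS.1 f.2⟩,
    fun _ _ h => Subtype.ext (map_inj (congrArg Subtype.val h))⟩

/-- the event that the open edges inside `S` are those of `u` is a cylinder -/
theorem RS_eq_pi (S : Finset V) (u : Finset (Sym2 S)) (hu : u ⊆ FS G S) :
    {ω : G.edgeSet → Bool | RS G S ω = u}
      = Set.pi ((FS G S).attach.map (emb G S) : Finset G.edgeSet)
        (fun e => {b : Bool | b = true ↔ ∃ f ∈ u, f.map Subtype.val = e.1}) := by
  ext ω
  rw [Set.mem_pi]
  simp only [Set.mem_ofPred_eq]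
  constructor
  · intro h e he
    rw [Finset.mem_coe, Finset.mem_map] at he
    obtain ⟨f, _, hfe⟩ := he
    have hfF := mem_FS.1 f.2
    subst hfe
    constructor
    · intro hω
      refine ⟨f.1, ?_, rfl⟩
      rw [← h]
      exact mem_RS.2 ⟨hfF, hω⟩
    · rintro ⟨g, hg, hgf⟩
      have : g = f.1 := map_inj hgf
      rw [this, ← h] at hg
      exact (mem_RS.1 hg).2
  · intro h
    ext f
    constructor
    · intro hf
      have hfF : f ∈ FS G S := RS_subset S ω hf
      obtain ⟨h1, h2⟩ := mem_RS.1 hf
      obtain ⟨g, hg, hgf⟩ := (h ⟨f.map Subtype.val, h1⟩ (by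
        rw [Finset.mem_coe, Finset.mem_map]
        exact ⟨⟨f, hfF⟩, Finset.mem_attach _ _, rfl⟩)).1 h2
      rwa [map_inj hgf] at hg
    · intro hf
      have hfF : f ∈ FS G S := hu hf
      have hfF' := mem_FS.1 hfF
      refine mem_RS.2 ⟨hfF', (h ⟨f.map Subtype.val, hfF'⟩ (by
        rw [Finset.mem_coe, Finset.mem_map]
        exact ⟨⟨f, hfF⟩, Finset.mem_attach _ _, rfl⟩)).2 ⟨f, hf, rfl⟩⟩

theorem meas_eq (S : Finset V) (u : Finset (Sym2 S)) :
    MeasurableSet {ω : G.edgeSet → Bool | RS G S ω = u} := by
  classical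
  by_cases hu : u ⊆ FS G S
  · rw [RS_eq_pi S u hu]
    exact MeasurableSet.pi (Finset.countable_toSet _) (fun _ _ => MeasurableSet.of_discrete)
  · have : {ω : G.edgeSet → Bool | RS G S ω = u} = ∅ := by
      ext ω
      simp only [Set.mem_ofPred_eq, Set.mem_empty_iff_false, iff_false]
      rintro rfl
      exact hu (RS_subset S ω)
    rw [this]; exact MeasurableSet.empty

theorem meas_A (S : Finset V) (A : Finset (Sym2 S) → Prop) :
    MeasurableSet {ω : G.edgeSet → Bool | A (RS G S ω)} := by
  classical
  have : {ω : G.edgeSet → Bool | A (RS G S ω)}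
      = ⋃ u ∈ ((univ : Finset (Finset (Sym2 S))).filter A), {ω | RS G S ω = u} := by
    ext ω
    simp only [Set.mem_ofPred_eq, Finset.mem_filter, Finset.mem_univ, true_and, Set.mem_iUnion,
      exists_prop]
    constructor
    · intro h; exact ⟨_, h, rfl⟩
    · rintro ⟨u, hu, rfl⟩; exact hu
  rw [this]
  exact Finset.measurableSet_biUnion _ fun u _ => meas_eq S u

theorem perc_eq (p : G.edgeSet → unitInterval) (S : Finset V) [DecidableEq (Sym2 S)]
    (u : Finset (Sym2 S))
    (hu : u ⊆ FS G S) :
    (perc G p).real {ω | RS G S ω = u}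
      = (∏ e ∈ u, pS G p S e) * ∏ e ∈ FS G S \ u, (1 - pS G p S e) := by
  rw [RS_eq_pi S u hu, measureReal_def]
  unfold perc
  have hpi := Measure.infinitePi_pi
    (μ := fun e : G.edgeSet => ProbabilityTheory.bernoulliMeasure true false (p e))
    (s := (FS G S).attach.map (emb G S))
    (t := fun e => {b : Bool | b = true ↔ ∃ f ∈ u, f.map Subtype.val = e.1})
    (fun _ _ => MeasurableSet.of_discrete)
  rw [hpi, Finset.prod_map, ENNReal.toReal_prod]
  · have h1 : ∀ f ∈ (FS G S).attach, ((ProbabilityTheory.bernoulliMeasure true false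
        (p (emb G S f))) {b : Bool | b = true ↔ ∃ g ∈ u, g.map Subtype.val
            = (emb G S f).1}).toReal
        = if f.1 ∈ u then pS G p S f.1 else 1 - pS G p S f.1 := by
      intro f _
      have hfF := mem_FS.1 f.2
      change ((ProbabilityTheory.bernoulliMeasure true false
        (p ⟨f.1.map Subtype.val, hfF⟩)) {b : Bool | b = true ↔ ∃ g ∈ u, g.map Subtype.val
            = f.1.map Subtype.val}).toReal = _
      have hp : pS G p S f.1 = p ⟨f.1.map Subtype.val, hfF⟩ := by
        unfold pS; rw [dif_pos hfF]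
      rw [← measureReal_def]
      by_cases hfu : f.1 ∈ u
      · have hset : {b : Bool | b = true ↔ ∃ g ∈ u, g.map Subtype.val = f.1.map Subtype.val}
            = {true} := by
          ext b
          simp only [Set.mem_ofPred_eq, Set.mem_singleton_iff]
          exact ⟨fun h => h.2 ⟨f.1, hfu, rfl⟩, fun h => ⟨fun _ => ⟨f.1, hfu, rfl⟩, fun _ => h⟩⟩
        rw [hset, if_pos hfu, hp]
        rw [ProbabilityTheory.bernoulliMeasure_real_apply_of_mem_of_notMem _
          MeasurableSet.of_discrete (by simp) (by simp)]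
      · have hset : {b : Bool | b = true ↔ ∃ g ∈ u, g.map Subtype.val = f.1.map Subtype.val}
            = {false} := by
          ext b
          simp only [Set.mem_ofPred_eq, Set.mem_singleton_iff]
          have hno : ¬ ∃ g ∈ u, g.map Subtype.val = f.1.map Subtype.val := by
            rintro ⟨g, hg, hgf⟩
            rw [map_inj hgf] at hg
            exact hfu hg
          cases b
          · simp [hno]
          · simp [hno]
        rw [hset, if_neg hfu, hp]
        rw [ProbabilityTheory.bernoulliMeasure_real_apply_of_notMem_of_mem _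
          MeasurableSet.of_discrete (by simp) (by simp)]
    rw [Finset.prod_congr rfl h1, Finset.prod_attach (FS G S)
      (fun e => if e ∈ u then pS G p S e else 1 - pS G p S e),
      ← Finset.prod_sdiff hu, mul_comm]
    congr 1
    · apply Finset.prod_congr rfl
      intro e he; rw [if_pos he]
    · apply Finset.prod_congr rfl
      intro e he; rw [if_neg (Finset.mem_sdiff.1 he).2]

/-- the finite-dimensional distributions -/
theorem perc_A (p : G.edgeSet → unitInterval) (S : Finset V) (A : Finset (Sym2 S) → Prop) :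
    (perc G p).real {ω | A (RS G S ω)} = P (FS G S) (pS G p S) A := by
  classical
  have hset : {ω : G.edgeSet → Bool | A (RS G S ω)}
      = ⋃ u ∈ ((FS G S).powerset.filter A), {ω | RS G S ω = u} := by
    ext ω
    simp only [Set.mem_ofPred_eq, Finset.mem_filter, Finset.mem_powerset, Set.mem_iUnion,
      exists_prop]
    constructor
    · intro h; exact ⟨_, ⟨RS_subset S ω, h⟩, rfl⟩
    · rintro ⟨u, ⟨_, hu⟩, rfl⟩; exact hu
  rw [hset, measureReal_biUnion_finset]
  · unfold P
    rw [Finset.sum_filter]
    apply Finset.sum_congr rfl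
    intro u hu
    by_cases hA : A u
    · rw [if_pos hA, if_pos hA]
      exact @perc_eq V G p S
        (fun a b => @Sym2.instDecidableEq S (fun a b => Classical.propDecidable (a = b)) a b)
        u (Finset.mem_powerset.1 hu)
    · rw [if_neg hA, if_neg hA]
  · intro u _ w _ huw
    rw [Function.onFun, Set.disjoint_left]
    rintro ω h1 h2
    simp only [Set.mem_ofPred_eq] at h1 h2
    exact huw (h1.symm.trans h2)
  · intro u _; exact meas_eq S u

/-! ### Countability -/

theorem countable_of_locallyFinite (hfin : ∀ v, (G.neighborSet v).Finite) (hconn : G.Connected) :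
    Countable V := by
  obtain ⟨a⟩ := hconn.nonempty
  let s : ℕ → Set V := fun n => Nat.rec {a} (fun _ t => t ∪ ⋃ u ∈ t, G.neighborSet u) n
  have hs : ∀ n, (s n).Countable := by
    intro n
    induction n with
    | zero => exact Set.countable_singleton a
    | succ n ih =>
      exact ih.union (ih.biUnion fun u _ => (hfin u).countable)
  have hU : ∀ v, ∃ n, v ∈ s n := by
    intro v
    have hr := hconn.preconnected a v
    rw [SimpleGraph.reachable_iff_reflTransGen] at hr
    induction hr with
    | refl => exact ⟨0, rfl⟩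
    | @tail z w _ h2 ih =>
      obtain ⟨n, hn⟩ := ih
      refine ⟨n + 1, Or.inr ?_⟩
      simp only [Set.mem_iUnion, exists_prop]
      exact ⟨z, hn, h2⟩
  have huniv : (Set.univ : Set V) = ⋃ n, s n := by
    ext v; simp only [Set.mem_univ, Set.mem_iUnion, true_iff]; exact hU v
  have hc : (Set.univ : Set V).Countable := by
    rw [huniv]; exact Set.countable_iUnion hs
  exact Set.countable_univ_iff.1 hc

/-! ### The limit -/

theorem meas_conS (S : Finset V) {x y : V} (hx : x ∈ S) (hy : y ∈ S) :
    MeasurableSet {ω : G.edgeSet → Bool | conS G ω S x y} := by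
  have : {ω : G.edgeSet → Bool | conS G ω S x y}
      = {ω | Conn (RS G S ω) ⟨x, hx⟩ ⟨y, hy⟩} := by
    ext ω; exact conS_iff S ω hx hy
  rw [this]
  exact meas_A S (fun u => Conn u ⟨x, hx⟩ ⟨y, hy⟩)

/-- the estimate inside a finite set of vertices -/
theorem fin_est (p : G.edgeSet → unitInterval) (S : Finset V) {a b c : V} (ha : a ∈ S)
    (hb : b ∈ S) (hc : c ∈ S) :
    ((perc G p).real ({ω | conS G ω S a b} ∩ {ω | conS G ω S a c})
      - (perc G p).real {ω | conS G ω S a c} * (perc G p).real {ω | conS G ω S b c}) ^ 3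
      ≤ 54 * ((perc G p).real {ω | conS G ω S a b}
        - (perc G p).real ({ω | conS G ω S a b} ∩ {ω | conS G ω S a c})) := by
  have h := main (V := S) (FS G S) (pS G p S) (by
    intro e he
    unfold pS
    rw [dif_pos (mem_FS.1 he)]
    exact ⟨unitInterval.nonneg _, unitInterval.le_one _⟩) ⟨a, ha⟩ ⟨b, hb⟩ ⟨c, hc⟩
  rw [← perc_A p S, ← perc_A p S, ← perc_A p S, ← perc_A p S] at h
  have e1 : {ω : G.edgeSet → Bool | conS G ω S a b} ∩ {ω | conS G ω S a c}
      = {ω | Conn (RS G S ω) ⟨a, ha⟩ ⟨b, hb⟩ ∧ Conn (RS G S ω) ⟨a, ha⟩ ⟨c, hc⟩} := by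
    ext ω
    simp only [Set.mem_inter_iff, Set.mem_ofPred_eq, conS_iff S ω ha hb, conS_iff S ω ha hc]
  have e2 : {ω : G.edgeSet → Bool | conS G ω S a c}
      = {ω | Conn (RS G S ω) ⟨a, ha⟩ ⟨c, hc⟩} := by
    ext ω; exact conS_iff S ω ha hc
  have e3 : {ω : G.edgeSet → Bool | conS G ω S b c}
      = {ω | Conn (RS G S ω) ⟨b, hb⟩ ⟨c, hc⟩} := by
    ext ω; exact conS_iff S ω hb hc
  have e4 : {ω : G.edgeSet → Bool | Conn (RS G S ω) ⟨a, ha⟩ ⟨b, hb⟩
      ∧ ¬ Conn (RS G S ω) ⟨a, ha⟩ ⟨c, hc⟩}
      = {ω | conS G ω S a b} \ {ω | conS G ω S a c} := by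
    ext ω
    simp only [Set.mem_sdiff, Set.mem_ofPred_eq, conS_iff S ω ha hb, conS_iff S ω ha hc]
  have e5 : (perc G p).real {ω | conS G ω S a b}
      - (perc G p).real ({ω | conS G ω S a b} ∩ {ω | conS G ω S a c})
      = (perc G p).real ({ω | conS G ω S a b} \ {ω | conS G ω S a c}) := by
    have := measureReal_inter_add_sdiff (μ := perc G p) (s := {ω | conS G ω S a b})
      (t := {ω | conS G ω S a c}) (meas_conS S ha hc)
    linarith
  rw [e4, ← e1, ← e2, ← e3] at h
  rw [e5]
  exact h

/-- monotone unions -/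
theorem tends {μ : Measure (G.edgeSet → Bool)} [IsFiniteMeasure μ] {s : ℕ → Set (G.edgeSet → Bool)}
    (hs : Monotone s) : Filter.Tendsto (fun n => μ.real (s n)) Filter.atTop
      (nhds (μ.real (⋃ n, s n))) := by
  have h := tendsto_measure_iUnion_atTop (μ := μ) hs
  exact (ENNReal.tendsto_toReal (measure_ne_top μ _)).comp h

/-- **the estimate on an infinite graph** -/
theorem inf_est [Countable V] (p : G.edgeSet → unitInterval) (a b c : V) :
    ((perc G p).real ({ω | (openG G ω).Reachable a b} ∩ {ω | (openG G ω).Reachable a c})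
      - (perc G p).real {ω | (openG G ω).Reachable a c}
        * (perc G p).real {ω | (openG G ω).Reachable b c}) ^ 3
      ≤ 54 * ((perc G p).real {ω | (openG G ω).Reachable a b}
        - (perc G p).real ({ω | (openG G ω).Reachable a b} ∩ {ω | (openG G ω).Reachable a c})) := by
  classical
  have : Nonempty V := ⟨a⟩
  obtain ⟨f, hf⟩ := exists_surjective_nat V
  let S : ℕ → Finset V := fun n => {a, b, c} ∪ (Finset.range n).image f
  have hS : Monotone S := by
    intro m n hmn
    apply Finset.union_subset_union_right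
    exact Finset.image_subset_image (Finset.range_mono hmn)
  have hU : ∀ v, ∃ n, v ∈ S n := by
    intro v
    obtain ⟨i, rfl⟩ := hf v
    exact ⟨i + 1, Finset.mem_union_right _
      (Finset.mem_image_of_mem _ (Finset.mem_range.2 (Nat.lt_succ_self i)))⟩
  have ha : ∀ n, a ∈ S n := fun n => Finset.mem_union_left _ (by simp)
  have hb : ∀ n, b ∈ S n := fun n => Finset.mem_union_left _ (by simp)
  have hc : ∀ n, c ∈ S n := fun n => Finset.mem_union_left _ (by simp)
  have mono : ∀ x y : V, Monotone fun n => {ω : G.edgeSet → Bool | conS G ω (S n) x y} := by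
    intro x y m n hmn ω h
    exact conS_mono (hS hmn) h
  have hun : ∀ x y : V, (⋃ n, {ω : G.edgeSet → Bool | conS G ω (S n) x y})
      = {ω | (openG G ω).Reachable x y} := by
    intro x y
    ext ω
    simp only [Set.mem_iUnion, Set.mem_ofPred_eq]
    exact (reach_iff hS hU ω x y).symm
  have monoI : Monotone fun n => {ω : G.edgeSet → Bool | conS G ω (S n) a b}
      ∩ {ω | conS G ω (S n) a c} := by
    intro m n hmn
    exact Set.inter_subset_inter (mono a b hmn) (mono a c hmn)
  have hunI : (⋃ n, {ω : G.edgeSet → Bool | conS G ω (S n) a b} ∩ {ω | conS G ω (S n) a c})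
      = {ω | (openG G ω).Reachable a b} ∩ {ω | (openG G ω).Reachable a c} := by
    rw [← hun a b, ← hun a c]
    exact Set.iUnion_inter_of_monotone (mono a b) (mono a c)
  have t1 := tends (μ := perc G p) monoI
  have t2 := tends (μ := perc G p) (mono a c)
  have t3 := tends (μ := perc G p) (mono b c)
  have t4 := tends (μ := perc G p) (mono a b)
  rw [hunI] at t1
  rw [hun] at t2 t3 t4
  exact le_of_tendsto_of_tendsto' ((t1.sub (t2.mul t3)).pow 3) ((t4.sub t1).const_mul 54)
    (fun n => fin_est p (S n) (ha n) (hb n) (hc n))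

theorem meas_reach [Countable V] (x y : V) :
    MeasurableSet {ω : G.edgeSet → Bool | (openG G ω).Reachable x y} := by
  classical
  have : Nonempty V := ⟨x⟩
  obtain ⟨f, hf⟩ := exists_surjective_nat V
  let S : ℕ → Finset V := fun n => {x, y} ∪ (Finset.range n).image f
  have hS : Monotone S := by
    intro m n hmn
    apply Finset.union_subset_union_right
    exact Finset.image_subset_image (Finset.range_mono hmn)
  have hU : ∀ v, ∃ n, v ∈ S n := by
    intro v
    obtain ⟨i, rfl⟩ := hf v
    exact ⟨i + 1, Finset.mem_union_right _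
      (Finset.mem_image_of_mem _ (Finset.mem_range.2 (Nat.lt_succ_self i)))⟩
  have hx : ∀ n, x ∈ S n := fun n => Finset.mem_union_left _ (by simp)
  have hy : ∀ n, y ∈ S n := fun n => Finset.mem_union_left _ (by simp)
  have : {ω : G.edgeSet → Bool | (openG G ω).Reachable x y}
      = ⋃ n, {ω | conS G ω (S n) x y} := by
    ext ω
    simp only [Set.mem_iUnion, Set.mem_ofPred_eq]
    exact reach_iff hS hU ω x y
  rw [this]
  exact MeasurableSet.iUnion fun n => meas_conS (S n) (hx n) (hy n)

/-- the three-point form -/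
theorem three [Countable V] (p : G.edgeSet → unitInterval) (a b c : V) :
    ((perc G p).real {ω | (openG G ω).Reachable a b ∧ (openG G ω).Reachable a c}
      * (perc G p).real {ω | ¬ (openG G ω).Reachable a b ∧ ¬ (openG G ω).Reachable a c
          ∧ ¬ (openG G ω).Reachable b c}
      - (perc G p).real {ω | (openG G ω).Reachable a c ∧ ¬ (openG G ω).Reachable a b}
        * (perc G p).real {ω | (openG G ω).Reachable b c ∧ ¬ (openG G ω).Reachable a b}) ^ 3
      ≤ 54 * (perc G p).real {ω | (openG G ω).Reachable a b ∧ ¬ (openG G ω).Reachable a c} := by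
  set μ := perc G p with hμ
  set A := {ω : G.edgeSet → Bool | (openG G ω).Reachable a b} with hA
  set B := {ω : G.edgeSet → Bool | (openG G ω).Reachable a c} with hB
  set C := {ω : G.edgeSet → Bool | (openG G ω).Reachable b c} with hC
  have mA : MeasurableSet A := meas_reach a b
  have mB : MeasurableSet B := meas_reach a c
  have mC : MeasurableSet C := meas_reach b c
  have s1 : {ω : G.edgeSet → Bool | (openG G ω).Reachable a b ∧ (openG G ω).Reachable a c}
      = A ∩ B := rfl
  have s2 : {ω : G.edgeSet → Bool | (openG G ω).Reachable a c ∧ ¬ (openG G ω).Reachable a b}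
      = B \ A := rfl
  have s3 : {ω : G.edgeSet → Bool | (openG G ω).Reachable b c ∧ ¬ (openG G ω).Reachable a b}
      = C \ A := rfl
  have s4 : {ω : G.edgeSet → Bool | (openG G ω).Reachable a b ∧ ¬ (openG G ω).Reachable a c}
      = A \ B := rfl
  have hCA : C ∩ A = A ∩ B := by
    ext ω
    simp only [hA, hB, hC, Set.mem_inter_iff, Set.mem_ofPred_eq]
    constructor
    · rintro ⟨h1, h2⟩; exact ⟨h2, h2.trans h1⟩
    · rintro ⟨h1, h2⟩; exact ⟨h1.symm.trans h2, h1⟩
  have s5 : {ω : G.edgeSet → Bool | ¬ (openG G ω).Reachable a b ∧ ¬ (openG G ω).Reachable a c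
          ∧ ¬ (openG G ω).Reachable b c} = ((A ∪ (B \ A)) ∪ (C \ A))ᶜ := by
    ext ω
    simp only [hA, hB, hC, Set.mem_compl_iff, Set.mem_union, Set.mem_sdiff, Set.mem_ofPred_eq]
    tauto
  rw [s1, s2, s3, s4, s5]
  have d1 : μ.real B = μ.real (A ∩ B) + μ.real (B \ A) := by
    have := measureReal_inter_add_sdiff (μ := μ) (s := B) (t := A) mA
    rw [Set.inter_comm B A] at this
    linarith
  have d2 : μ.real C = μ.real (A ∩ B) + μ.real (C \ A) := by
    have := measureReal_inter_add_sdiff (μ := μ) (s := C) (t := A) mA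
    rw [hCA] at this
    linarith
  have d3 : μ.real A = μ.real (A ∩ B) + μ.real (A \ B) := by
    have := measureReal_inter_add_sdiff (μ := μ) (s := A) (t := B) mB
    linarith
  have d4 : μ.real ((A ∪ (B \ A)) ∪ (C \ A))ᶜ
      = 1 - (μ.real A + μ.real (B \ A) + μ.real (C \ A)) := by
    rw [measureReal_compl ((mA.union (mB.diff mA)).union (mC.diff mA)), probReal_univ]
    congr 1
    rw [measureReal_union, measureReal_union]
    · exact Set.disjoint_sdiff_right
    · exact mB.diff mA
    · rw [Set.disjoint_left]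
      rintro ω (h1 | ⟨h1, h2⟩) ⟨h3, h4⟩
      · exact h4 h1
      · -- `a ~ c` and `b ~ c` imply `a ~ b`
        apply h4
        exact (show (openG G ω).Reachable a c from h1).trans
          (show (openG G ω).Reachable b c from h3).symm
    · exact mC.diff mA
  have hcov := inf_est (G := G) p a b c
  rw [← hμ, ← hA, ← hB, ← hC] at hcov
  set x := μ.real (A ∩ B)
  set y := μ.real (B \ A)
  set z := μ.real (C \ A)
  set w := μ.real (A \ B)
  have hx : 0 ≤ x := measureReal_nonneg
  have hw : 0 ≤ w := measureReal_nonneg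
  rw [d4, d3]
  rw [d1, d2, d3] at hcov
  have hle : x * (1 - (x + w + y + z)) - y * z ≤ x - (x + y) * (x + z) := by nlinarith
  have hodd : (x * (1 - (x + w + y + z)) - y * z) ^ 3 ≤ (x - (x + y) * (x + z)) ^ 3 :=
    (Odd.strictMono_pow (by decide : Odd 3)).monotone hle
  linarith

end Pool.Agent.R113.PercInf
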